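import Pool.Agent.Helper72.LR.Sz

/-! LEMMA R in the exact calculus: truncation of functions, linear functions of a real variable at finite depth. -/

set_option autoImplicit false

namespace Pool.Agent.Helper72.LR

open Finset Filter Topology Pool.Agent.Helper69.RK Pool.Agent.Helper31.EC Pool.Agent.Helper31.EC.Sp
open Pool.Agent.Helper31.EC.QS

noncomputable section

/-- truncation of a function at level `r` -/
theorem exists_trunc {S : Sp} (f : QS S) {r : ℝ} (h0 : 0 ≤ r) (h1 : r ≤ 1) :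
    ∃ f' : QS S, f' - f ∈ Id S r ∧ dg f' 1 ≤ dg f r := by
  obtain ⟨f, rfl⟩ := mk_surj f
  obtain ⟨y, hy⟩ : ∃ y : S.VV 1, y = TR.vec (fun _ : Fin 1 => f) := ⟨_, rfl⟩
  refine ⟨mk (TR.cor (y.fl r h0) 0), ?_, ?_⟩
  · rw [← map_sub, mk_mem_Id h1]
    refine ⟨fun _ _ => True, fun _ => 1, Typ_true, S.Sub_const zero_le_one, Eventually.of_forall fun k ω _ _ => ?_⟩
    rw [TR.ev_zero, sub_zero, one_mul]
    have h2 := y.fl_sub r h0 k ω 0
    have h3 : TR.ev (TR.cor (y.fl r h0) 0 - f) k ω = -(y.v k ω 0 - (y.fl r h0).v k ω 0) := by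
      rw [TR.ev_sub, hy]
      show (VV.fl _ r h0).v k ω 0 - TR.ev f k ω = -(TR.ev f k ω - (VV.fl _ r h0).v k ω 0)
      ring
    rw [h3, abs_neg, abs_of_nonneg h2.1]
    exact h2.2.le
  · rw [dg_mk _ le_rfl, dg_mk _ h1]
    refine (TR.cor_dg_le (y.fl r h0) 0 1).trans ?_
    refine (y.fl_dg_le r h0 1).trans ?_
    rw [hy]
    exact le_rfl

/-- a linear function of a real variable with known coefficients is small only if the coefficients are small -/
theorem lin_small {M : Sp} {c0 c1 x : QS M} {X : M.L} {r : ℝ} (hr : r ≤ 1) (h0 : dg c0 1 ≤ X) (h1 : dg c1 1 ≤ X)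
    (hx : h (dg x 1) X = 1) (hz : c0 + c1 * x ∈ Id M r) : c0 ∈ Id M r ∧ c1 ∈ Id M r := by
  have hv : vd ![c0, c1] 1 ≤ X := by
    rw [vd_le]
    intro i
    fin_cases i
    · exact h0
    · exact h1
  have hx' : h (dg x 1) (vd ![c0, c1] 1) = 1 :=
    le_antisymm (h_dg_le_one _ _) (hx.ge.trans (h_anti hv))
  have hpe : pe ![c0, c1] x ∈ Id M r := by
    unfold pe
    rw [Fin.sum_univ_two]
    show c0 * x ^ 0 + c1 * x ^ 1 ∈ Id M r
    rw [pow_zero, mul_one, pow_one]
    exact hz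
  exact ⟨real_zero _ x hx' hr hpe 0, real_zero _ x hx' hr hpe 1⟩

end

end Pool.Agent.Helper72.LR
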