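import Pool.Agent.Helper72.LR.Thm
import Pool.Agent.Helper86.RN.Main

/-! LEMMA R in the exact calculus, unconditional form. -/

set_option autoImplicit false

namespace Pool.Agent.Helper72.LR

open Pool.Agent.Helper31.EC Pool.Agent.Helper31.EC.QS

noncomputable section

/-- **LEMMA R** -/
theorem lemma_r {S : Sp} {g : ℝ} (hg : 0 < g) (s : LS S g) :
    ∃ (T : Sp) (p : Pj T S) (θ α β : QS T), dg θ 1 = ⊥ ∧ dg α 1 = ⊥ ∧ dg β 1 = ⊥ ∧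
      p.qs s.k0 = β + θ * p.qs s.y ∧ p.qs s.k1 = α - θ * p.qs s.t :=
  lemmaR Pool.Agent.Helper86.RN.rnec hg s

/-- **LEMMA R** at depth `d` -/
theorem lemma_rd {S : Sp} {g d : ℝ} (hg : 0 < g) (hd0 : 0 < d) (hd1 : d ≤ 1) (s : LSd S g d) :
    ∃ (T : Sp) (p : Pj T S) (θ α β : QS T), dg θ 1 = ⊥ ∧ dg α 1 = ⊥ ∧ dg β 1 = ⊥ ∧
      p.qs s.k0 - (β + θ * p.qs s.y) ∈ Id T d ∧ p.qs s.k1 - (α - θ * p.qs s.t) ∈ Id T d :=
  lemmaRd Pool.Agent.Helper86.RN.rnec hg hd0 hd1 s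

end

end Pool.Agent.Helper72.LR
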