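import Pool.Agent.Helper72.LR.Tru

/-! LEMMA R in the exact calculus: the basic block and chains of blocks. -/

set_option autoImplicit false

namespace Pool.Agent.Helper72.LR

open Finset Filter Topology Pool.Agent.Helper69.RK Pool.Agent.Helper31.EC Pool.Agent.Helper31.EC.Sp
open Pool.Agent.Helper31.EC.QS

noncomputable section

variable {S : Sp}

/-- a transversal of direction `w` through two points; the lines of the directions `u b` through the first and through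
the second point have the intercepts `A b`, `A' b` and the slopes `F b`, `F' b` -/
structure Bk (M : Sp) (g d : ℝ) where
  w : QS M
  u : Bool → QS M
  A : Bool → QS M
  A' : Bool → QS M
  F : Bool → QS M
  F' : Bool → QS M
  rch : Rch w ⊥ g
  wu : ∀ b, IsUnit (w - u b)
  uu : ∀ b, IsUnit (u b - u (!b))
  fF : ∀ b, dg (F b) 1 ≤ dg (A b) 1 ⊔ dg (u b) 1
  fF' : ∀ b, dg (F' b) 1 ≤ dg (A' b) 1 ⊔ dg (u b) 1
  ux : ∀ b, IsUnit (A' b - A b)
  iu : ∀ b, I (dg (u b) 1) (dg (u (!b)) 1) ⊥ = 0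
  iw : ∀ b, I (dg w 1) (dg (A b) 1 ⊔ dg (A' b) 1 ⊔ (dg (F b) 1 ⊔ dg (F' b) 1) ⊔ (dg (u b) 1 ⊔ dg (u (!b)) 1)) ⊥ = 0
  re : ∀ b, h (dg (A b) 1) (dg w 1 ⊔ (dg (A (!b)) 1 ⊔ dg (A' (!b)) 1 ⊔ (dg (F (!b)) 1 ⊔ dg (F' (!b)) 1)) ⊔
    (dg (u b) 1 ⊔ dg (u (!b)) 1)) = 1
  re' : ∀ b, h (dg (A' b) 1) (dg w 1 ⊔ (dg (A (!b)) 1 ⊔ dg (A' (!b)) 1 ⊔ (dg (F (!b)) 1 ⊔ dg (F' (!b)) 1)) ⊔
    (dg (u b) 1 ⊔ dg (u (!b)) 1)) = 1
  iA : ∀ b, I (dg (A b) 1) (dg (A' b) 1) (dg (u b) 1 ⊔ dg (u (!b)) 1) = 0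
  ex : ∀ b, (w - u (!b)) * (A' b - A b) = (w - u b) * (A' (!b) - A (!b))
  eG : ∀ b, (w - u (!b)) * (F' b - F b) - (w - u b) * (F' (!b) - F (!b)) ∈ Id M d

namespace Bk

variable {M : Sp} {g d : ℝ} (k : Bk M g d)

/-- the two directions -/
def U : M.L := dg (k.u true) 1 ⊔ dg (k.u false) 1
/-- the pair of parallel lines -/
def P (b : Bool) : M.L := dg (k.A b) 1 ⊔ dg (k.A' b) 1 ⊔ (dg (k.F b) 1 ⊔ dg (k.F' b) 1)
/-- the difference of the pair -/
def x (b : Bool) : QS M := k.A' b - k.A b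
def G (b : Bool) : QS M := k.F' b - k.F b

theorem U_eq (b : Bool) : dg (k.u b) 1 ⊔ dg (k.u (!b)) 1 = k.U := by
  cases b
  · exact sup_comm _ _
  · rfl

theorem u_le (b : Bool) : dg (k.u b) 1 ≤ k.U := by
  rw [← k.U_eq b]; exact le_sup_left

theorem iw' (b : Bool) : I (dg k.w 1) (k.P b ⊔ k.U) ⊥ = 0 := by
  rw [← k.U_eq b]; exact k.iw b

theorem re1 (b : Bool) : h (dg (k.A b) 1) (dg k.w 1 ⊔ k.P (!b) ⊔ k.U) = 1 := by
  rw [← k.U_eq b]; exact k.re b

theorem re2 (b : Bool) : h (dg (k.A' b) 1) (dg k.w 1 ⊔ k.P (!b) ⊔ k.U) = 1 := by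
  rw [← k.U_eq b]; exact k.re' b

theorem iA' (b : Bool) : I (dg (k.A b) 1) (dg (k.A' b) 1) k.U = 0 := by
  rw [← k.U_eq b]; exact k.iA b

/-- a real variable over `C` has no information with a part of `C` -/
theorem I_of_one {f : QS M} {B C : M.L} (hf : h (dg f 1) (B ⊔ C) = 1) : I (dg f 1) B C = 0 := by
  apply le_antisymm _ (I_nonneg _ _ _)
  rw [I_eq, hf]
  have := h_dg_le_one f C
  linarith

theorem iA1 (b : Bool) : I (dg (k.A b) 1) (dg k.w 1 ⊔ k.P (!b)) k.U = 0 := I_of_one (k.re1 b)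
theorem iA2 (b : Bool) : I (dg (k.A' b) 1) (dg k.w 1 ⊔ k.P (!b)) k.U = 0 := I_of_one (k.re2 b)

theorem x_le (b : Bool) : dg (k.x b) 1 ≤ k.P b := by
  refine (dg_sub_le _ _ le_rfl).trans ?_
  exact sup_le (le_sup_right.trans le_sup_left) (le_sup_left.trans le_sup_left)

theorem G_le (b : Bool) : dg (k.G b) 1 ≤ k.P b := by
  refine (dg_sub_le _ _ le_rfl).trans ?_
  exact sup_le (le_sup_right.trans le_sup_right) (le_sup_left.trans le_sup_right)

/-- the factor -/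
def kap (b : Bool) : QS M := (k.w - k.u b) * Ring.inverse (k.w - k.u (!b))

theorem kap_mul (b : Bool) : k.kap b * (k.w - k.u (!b)) = k.w - k.u b := by
  unfold kap
  rw [mul_assoc, Ring.inverse_mul_cancel _ (k.wu (!b)), mul_one]

theorem x_eq (b : Bool) : k.x b = k.kap b * k.x (!b) := by
  have h1 := k.ex b
  have h2 : (k.w - k.u (!b)) * (k.x b - k.kap b * k.x (!b)) = 0 := by
    unfold x
    have := k.kap_mul b
    linear_combination h1 - this * (k.A' (!b) - k.A (!b))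
  have h3 := (k.wu (!b)).mul_right_eq_zero.mp h2
  exact sub_eq_zero.mp h3

theorem G_eq (b : Bool) : k.G b - k.kap b * k.G (!b) ∈ Id M d := by
  have h1 := k.eG b
  have h2 : (k.w - k.u (!b)) * (k.G b - k.kap b * k.G (!b)) =
      (k.w - k.u (!b)) * (k.F' b - k.F b) - (k.w - k.u b) * (k.F' (!b) - k.F (!b)) := by
    unfold G
    have := k.kap_mul b
    linear_combination -this * (k.F' (!b) - k.F (!b))
  rw [← h2] at h1
  exact mem_Id_of_unit_mul (k.wu (!b)) h1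

theorem dg_inverse_le {f : QS M} (hf : IsUnit f) {r : ℝ} (hr : r ≤ 1) : dg (Ring.inverse f) r ≤ dg f r :=
  dg_inv_le (Ring.inverse_mul_cancel _ hf) hr

theorem kap_le (b : Bool) : dg (k.kap b) 1 ≤ dg k.w 1 ⊔ k.U := by
  have h1 := k.u_le b
  have h2 := k.u_le (!b)
  refine (dg_mul_le _ _ le_rfl).trans (sup_le ?_ ?_)
  · exact (dg_sub_le _ _ le_rfl).trans (sup_le_sup le_rfl h1)
  · refine (dg_inverse_le (k.wu (!b)) le_rfl).trans ?_
    exact (dg_sub_le _ _ le_rfl).trans (sup_le_sup le_rfl h2)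

theorem one_sub_kap (b : Bool) : IsUnit (1 - k.kap b) := by
  have h1 := k.kap_mul b
  have h2 : (1 - k.kap b) * (k.w - k.u (!b)) = k.u b - k.u (!b) := by
    rw [sub_mul, h1]; ring
  have h3 := k.uu b
  rw [← h2] at h3
  exact isUnit_of_mul_isUnit_left h3

theorem w_le (b : Bool) {r : ℝ} (hr : r ≤ 1) : dg k.w r ≤ dg (k.kap b) r ⊔ k.U := by
  have h1 := k.kap_mul b
  have h2 : k.w * (1 - k.kap b) = k.u b - k.kap b * k.u (!b) := by linear_combination -h1
  have h3 : k.w = (k.u b - k.kap b * k.u (!b)) * Ring.inverse (1 - k.kap b) := by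
    rw [← h2, mul_assoc, Ring.mul_inverse_cancel _ (k.one_sub_kap b), mul_one]
  have u1 : dg (k.u b) r ≤ k.U := (dg_mono _ hr).trans (k.u_le b)
  have u2 : dg (k.u (!b)) r ≤ k.U := (dg_mono _ hr).trans (k.u_le (!b))
  have hK : k.w ∈ Kn M r hr (dg (k.kap b) r ⊔ k.U) := by
    rw [h3]
    apply Subring.mul_mem
    · apply Subring.sub_mem
      · exact u1.trans le_sup_right
      · apply Subring.mul_mem
        · exact (le_sup_left : dg (k.kap b) r ≤ _)
        · exact u2.trans le_sup_right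
    · refine (dg_inverse_le (k.one_sub_kap b) hr).trans ?_
      apply Subring.sub_mem (Kn M r hr (dg (k.kap b) r ⊔ k.U))
      · exact Subring.one_mem _
      · exact (le_sup_left : dg (k.kap b) r ≤ _)
  exact hK

end Bk

/-! ### chains -/

/-- a chain of `n + 1` blocks -/
structure Ch {M : Sp} {g d : ℝ} (k : Bk M g d) (b0 : Bool) (n : ℕ) where
  W : Sp
  pf : Pj W M
  pl : Pj W M
  b : Bool
  gam : Fin (n + 1) → QS W
  hu : ∀ c, pf.qs (k.u c) = pl.qs (k.u c)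
  hx : pl.qs (k.x b) = (∏ i, gam i) * pf.qs (k.x b0)
  hG : pl.qs (k.G b) - (∏ i, gam i) * pf.qs (k.G b0) ∈ Id W d
  rch : ∀ i, Rch (gam i) (pf.map (dg (k.x b0) 1 ⊔ dg (k.G b0) 1 ⊔ k.U)) g
  ind : h (vd gam 1) (pf.map (dg (k.x b0) 1 ⊔ dg (k.G b0) 1 ⊔ k.U)) =
    ∑ i, h (dg (gam i) 1) (pf.map (dg (k.x b0) 1 ⊔ dg (k.G b0) 1 ⊔ k.U))
  iA : I (pl.map (dg (k.A b) 1)) (vd gam 1 ⊔ pf.map (dg (k.x b0) 1 ⊔ dg (k.G b0) 1)) (pf.map k.U) = 0
  iA' : I (pl.map (dg (k.A' b) 1)) (vd gam 1 ⊔ pf.map (dg (k.x b0) 1 ⊔ dg (k.G b0) 1)) (pf.map k.U) = 0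

theorem vd_fin_one {M : Sp} (f : Fin 1 → QS M) (r : ℝ) : vd f r = dg (f 0) r := by
  apply le_antisymm
  · rw [vd_le]
    intro i
    rw [Subsingleton.elim i 0]
  · exact dg_le_vd f r 0

theorem Rch.kap {M : Sp} {g d : ℝ} (k : Bk M g d) (b : Bool) {T : Sp} (p : Pj T M) {X : T.L}
    (h1 : Rch (p.qs k.w) X g) (hU : p.map k.U ≤ X) : Rch (p.qs (k.kap b)) X g := by
  apply h1.trans
  intro r hr
  rw [p.qs_dg, p.qs_dg]
  have h2 := p.map_mono (k.w_le b hr)
  rw [p.map_sup] at h2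
  exact h2.trans (sup_le_sup le_rfl hU)

/-- the first block -/
def Ch.start {M : Sp} {g d : ℝ} (k : Bk M g d) (b0 : Bool) : Ch k b0 0 where
  W := M
  pf := Pj.id M
  pl := Pj.id M
  b := !b0
  gam := fun _ => k.kap (!b0)
  hu := fun _ => rfl
  hx := by
    have h1 := k.x_eq (!b0)
    rw [Bool.not_not] at h1
    rw [Pj.id_qs, Pj.id_qs, Fin.prod_univ_succ, Fin.prod_univ_zero, mul_one]
    exact h1
  hG := by
    have h1 := k.G_eq (!b0)
    rw [Bool.not_not] at h1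
    rw [Pj.id_qs, Pj.id_qs, Fin.prod_univ_succ, Fin.prod_univ_zero, mul_one]
    exact h1
  rch := fun _ => by
    rw [Pj.id_map]
    have h1 := k.rch.indep (k.iw' b0)
    rw [sup_bot_eq] at h1
    have h2 : Rch k.w (dg (k.x b0) 1 ⊔ dg (k.G b0) 1 ⊔ k.U) g :=
      h1.anti (sup_le_sup (sup_le (k.x_le b0) (k.G_le b0)) le_rfl)
    have h3 : Rch ((Pj.id M).qs k.w) (dg (k.x b0) 1 ⊔ dg (k.G b0) 1 ⊔ k.U) g := by
      rw [Pj.id_qs]; exact h2
    have h4 := h3.kap k (!b0) (Pj.id M) (by rw [Pj.id_map]; exact le_sup_right)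
    rw [Pj.id_qs] at h4
    exact h4
  ind := by
    rw [vd_fin_one]
    simp
  iA := by
    have h1 := k.iA1 (!b0)
    rw [Bool.not_not] at h1
    rw [Pj.id_map, Pj.id_map, Pj.id_map, vd_fin_one]
    refine I_zero_mono h1 le_sup_left ?_
    refine sup_le ?_ ?_
    · refine (k.kap_le (!b0)).trans ?_
      exact sup_le (le_sup_left.trans le_sup_left) le_sup_right
    · exact (sup_le (k.x_le b0) (k.G_le b0)).trans (le_sup_right.trans le_sup_left)
  iA' := by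
    have h1 := k.iA2 (!b0)
    rw [Bool.not_not] at h1
    rw [Pj.id_map, Pj.id_map, Pj.id_map, vd_fin_one]
    refine I_zero_mono h1 le_sup_left ?_
    refine sup_le ?_ ?_
    · refine (k.kap_le (!b0)).trans ?_
      exact sup_le (le_sup_left.trans le_sup_left) le_sup_right
    · exact (sup_le (k.x_le b0) (k.G_le b0)).trans (le_sup_right.trans le_sup_left)

/-- the common functions of the next copy -/
def Bk.cf {M : Sp} {g d : ℝ} (k : Bk M g d) (b : Bool) : Fin 6 → QS M :=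
  ![k.u true, k.u false, k.A b, k.A' b, k.F b, k.F' b]

theorem Bk.vd_cf {M : Sp} {g d : ℝ} (k : Bk M g d) (b : Bool) : vd (k.cf b) 1 = k.P b ⊔ k.U := by
  unfold Bk.cf Bk.P Bk.U
  apply le_antisymm
  · rw [vd_le]
    intro i
    fin_cases i
    · exact le_sup_left.trans le_sup_right
    · exact le_sup_right.trans le_sup_right
    · exact (le_sup_left.trans le_sup_left).trans le_sup_left
    · exact (le_sup_right.trans le_sup_left).trans le_sup_left
    · exact (le_sup_left.trans le_sup_right).trans le_sup_left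
    · exact (le_sup_right.trans le_sup_right).trans le_sup_left
  · exact sup_le (sup_le (sup_le (dg_le_vd (k.cf b) 1 2) (dg_le_vd (k.cf b) 1 3))
      (sup_le (dg_le_vd (k.cf b) 1 4) (dg_le_vd (k.cf b) 1 5)))
      (sup_le (dg_le_vd (k.cf b) 1 0) (dg_le_vd (k.cf b) 1 1))

theorem vd_snoc {M : Sp} {n : ℕ} (f : Fin n → QS M) (a : QS M) (r : ℝ) :
    vd (Fin.snoc f a : Fin (n + 1) → QS M) r = vd f r ⊔ dg a r := by
  apply le_antisymm
  · rw [vd_le]
    intro i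
    induction i using Fin.lastCases with
    | last => rw [Fin.snoc_last]; exact le_sup_right
    | cast i => rw [Fin.snoc_castSucc]; exact (dg_le_vd f r i).trans le_sup_left
  · apply sup_le
    · rw [vd_le]
      intro i
      have h1 := dg_le_vd (Fin.snoc f a : Fin (n + 1) → QS M) r i.castSucc
      rwa [Fin.snoc_castSucc] at h1
    · have h1 := dg_le_vd (Fin.snoc f a : Fin (n + 1) → QS M) r (Fin.last n)
      rwa [Fin.snoc_last] at h1

/-- one more block -/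
theorem Ch.next {M : Sp} {g d : ℝ} {k : Bk M g d} {b0 : Bool} {n : ℕ} (C : Ch k b0 n) : Nonempty (Ch k b0 (n + 1)) := by
  obtain ⟨D, p1, p2, hc, hI⟩ := C.pl.exists_copy (k.cf C.b)
  have hcom := Pj.copy_common hc 1
  rw [k.vd_cf] at hI hcom
  -- common functions
  have cu : ∀ c, p1.qs (C.pl.qs (k.u c)) = p2.qs (k.u c) := by
    intro c
    cases c
    · exact hc 1
    · exact hc 0
  have cA : p1.qs (C.pl.qs (k.A C.b)) = p2.qs (k.A C.b) := hc 2
  have cA' : p1.qs (C.pl.qs (k.A' C.b)) = p2.qs (k.A' C.b) := hc 3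
  have cF : p1.qs (C.pl.qs (k.F C.b)) = p2.qs (k.F C.b) := hc 4
  have cF' : p1.qs (C.pl.qs (k.F' C.b)) = p2.qs (k.F' C.b) := hc 5
  have cx : p1.qs (C.pl.qs (k.x C.b)) = p2.qs (k.x C.b) := by
    unfold Bk.x
    rw [map_sub, map_sub, map_sub, cA, cA']
  have cG : p1.qs (C.pl.qs (k.G C.b)) = p2.qs (k.G C.b) := by
    unfold Bk.G
    rw [map_sub, map_sub, map_sub, cF, cF']
  have mU : ∀ {X : Sp} (p q : Pj X M) (hpq : ∀ c, p.qs (k.u c) = q.qs (k.u c)), p.map k.U = q.map k.U := by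
    intro X p q hpq
    unfold Bk.U
    rw [p.map_sup, q.map_sup, ← p.qs_dg, ← p.qs_dg, ← q.qs_dg, ← q.qs_dg, hpq, hpq]
  have U1 : C.pf.map k.U = C.pl.map k.U := mU _ _ C.hu
  have U2 : p2.map k.U = p1.map (C.pf.map k.U) := by
    have h1 := mU (p1.comp C.pl) p2 (fun c => by rw [Pj.comp_qs]; exact cu c)
    rw [← h1, Pj.comp_map, U1]
  obtain ⟨V, hV⟩ : ∃ V : C.W.L, V = C.pf.map (dg (k.x b0) 1 ⊔ dg (k.G b0) 1) := ⟨_, rfl⟩
  obtain ⟨U, hU⟩ : ∃ U : C.W.L, U = C.pf.map k.U := ⟨_, rfl⟩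
  have hVU : C.pf.map (dg (k.x b0) 1 ⊔ dg (k.G b0) 1 ⊔ k.U) = V ⊔ U := by rw [C.pf.map_sup, hV, hU]
  have hU2 : p2.map k.U = p1.map U := by rw [U2, hU]
  -- the new factor is independent of everything old
  have iw : ∀ X : C.W.L, I (p2.map (dg k.w 1)) (p1.map X) ⊥ = 0 := by
    intro X
    have h1 : I (p2.map (dg k.w 1)) (p2.map (k.P C.b ⊔ k.U)) ⊥ = 0 := by
      rw [← p2.map_bot, p2.I_map]
      exact k.iw' C.b
    have h2 : I (p2.map (dg k.w 1)) (p1.map X) (p2.map (k.P C.b ⊔ k.U) ⊔ ⊥) = 0 := by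
      rw [sup_bot_eq, ← hcom, I_comm]
      exact hI _ _
    have h3 := I_contract h1 h2
    exact I_zero_mono h3 le_sup_left (le_sup_right.trans le_sup_left)
  have rw1 : ∀ X : C.W.L, Rch (p2.qs k.w) (p1.map X) g := by
    intro X
    have h1 := k.rch.pull p2
    rw [p2.map_bot] at h1
    have h2 : I (dg (p2.qs k.w) 1) (p1.map X) ⊥ = 0 := by rw [p2.qs_dg]; exact iw X
    have h3 := h1.indep h2
    rwa [sup_bot_eq] at h3
  -- new lines are independent of everything old and of the new factor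
  have iA : ∀ (f : QS M) (X : C.W.L), I (dg f 1) (dg k.w 1 ⊔ k.P C.b) k.U = 0 →
      I (p2.map (dg f 1)) (p2.map (dg k.w 1) ⊔ p1.map X) (p1.map U) = 0 := by
    intro f X h0
    rw [← hU2]
    have h1 : I (p2.map (dg f 1)) (p2.map (dg k.w 1 ⊔ k.P C.b)) (p2.map k.U) = 0 := by
      rw [p2.I_map]; exact h0
    have h2 : I (p2.map (dg f 1)) (p1.map X) (p2.map (dg k.w 1 ⊔ k.P C.b) ⊔ p2.map k.U) = 0 := by
      have h3 := hI X (dg f 1 ⊔ dg k.w 1)
      rw [hcom, p2.map_sup (dg f 1)] at h3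
      have h4 : I (p1.map X) (p2.map (dg k.w 1) ⊔ p2.map (dg f 1)) (p2.map (k.P C.b ⊔ k.U)) = 0 := by
        rw [sup_comm (p2.map (dg k.w 1))]; exact h3
      have h5 := (I_decomp h4).2
      rw [I_comm]
      have e : p2.map (dg k.w 1 ⊔ k.P C.b) ⊔ p2.map k.U = p2.map (dg k.w 1) ⊔ p2.map (k.P C.b ⊔ k.U) := by
        rw [p2.map_sup, p2.map_sup, sup_assoc]
      rw [e]
      exact h5
    have h3 := I_contract h1 h2
    refine I_zero_mono h3 le_sup_left (sup_le ?_ ?_)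
    · rw [p2.map_sup (dg k.w 1)]
      exact ((le_sup_left.trans le_sup_left).trans le_sup_left)
    · exact le_sup_right.trans le_sup_left
  obtain ⟨gam', hg'⟩ : ∃ gam' : Fin (n + 1 + 1) → QS D,
      gam' = Fin.snoc (fun i => p1.qs (C.gam i)) (p2.qs (k.kap (!C.b))) := ⟨_, rfl⟩
  have hvd : vd gam' 1 = p1.map (vd C.gam 1) ⊔ p2.map (dg (k.kap (!C.b)) 1) := by
    rw [hg', vd_snoc, p1.qs_vd, p2.qs_dg]
  have hprod : ∏ i, gam' i = (∏ i, p1.qs (C.gam i)) * p2.qs (k.kap (!C.b)) := by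
    rw [hg', Fin.prod_univ_castSucc, Fin.snoc_last]
    congr 1
    apply Finset.prod_congr rfl
    intro i _
    rw [Fin.snoc_castSucc]
  have hkap : p2.map (dg (k.kap (!C.b)) 1) ≤ p2.map (dg k.w 1) ⊔ p1.map U := by
    have h1 := p2.map_mono (k.kap_le (!C.b))
    rw [p2.map_sup, hU2] at h1
    exact h1
  have hiA : ∀ (f : QS M), I (dg f 1) (dg k.w 1 ⊔ k.P C.b) k.U = 0 →
      I (p2.map (dg f 1)) (vd gam' 1 ⊔ (p1.comp C.pf).map (dg (k.x b0) 1 ⊔ dg (k.G b0) 1))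
        ((p1.comp C.pf).map k.U) = 0 := by
    intro f h0
    rw [Pj.comp_map, Pj.comp_map, ← hU, ← hV, hvd]
    refine I_zero_mono (iA f (vd C.gam 1 ⊔ V) h0) le_sup_left ?_
    rw [p1.map_sup]
    refine sup_le (sup_le ?_ ?_) ?_
    · exact (le_sup_left.trans le_sup_right).trans le_sup_left
    · exact hkap.trans (sup_le (le_sup_left.trans le_sup_left) le_sup_right)
    · exact (le_sup_right.trans le_sup_right).trans le_sup_left
  refine ⟨⟨D, p1.comp C.pf, p2, !C.b, gam', ?_, ?_, ?_, ?_, ?_, ?_, ?_⟩⟩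
  · intro c
    rw [Pj.comp_qs, C.hu]
    exact cu c
  · have h1 := k.x_eq (!C.b)
    rw [Bool.not_not] at h1
    rw [h1, map_mul, ← cx, C.hx, map_mul, hprod, Pj.comp_qs, map_prod]
    ring
  · have h1 := k.G_eq (!C.b)
    rw [Bool.not_not] at h1
    have h2 := Pool.Agent.Helper82.TP.Pj_mem_Id p2 h1
    have h3 := Pool.Agent.Helper82.TP.Pj_mem_Id p1 C.hG
    rw [map_sub, map_mul, ← cG] at h2
    rw [map_sub, map_mul, map_prod] at h3
    rw [hprod, Pj.comp_qs]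
    have h4 : p2.qs (k.G (!C.b)) - (∏ i, p1.qs (C.gam i)) * p2.qs (k.kap (!C.b)) * p1.qs (C.pf.qs (k.G b0)) =
        (p2.qs (k.G (!C.b)) - p2.qs (k.kap (!C.b)) * p1.qs (C.pl.qs (k.G C.b))) +
        p2.qs (k.kap (!C.b)) * (p1.qs (C.pl.qs (k.G C.b)) - (∏ i, p1.qs (C.gam i)) * p1.qs (C.pf.qs (k.G b0))) := by
      ring
    rw [h4]
    exact (Id D d).add_mem h2 ((Id D d).mul_mem_left _ h3)
  · intro i
    rw [Pj.comp_map, hVU]
    induction i using Fin.lastCases with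
    | last =>
      rw [hg', Fin.snoc_last]
      apply (rw1 (V ⊔ U)).kap k (!C.b) p2
      rw [hU2, p1.map_sup]
      exact le_sup_right
    | cast i =>
      rw [hg', Fin.snoc_castSucc]
      have h1 := (C.rch i).pull p1
      rw [hVU] at h1
      exact h1
  · rw [Pj.comp_map, hVU, hvd, h_chain, p1.h_map]
    have h1 := C.ind
    rw [hVU] at h1
    rw [h1, Fin.sum_univ_castSucc (f := fun i => h (dg (gam' i) 1) (p1.map (V ⊔ U)))]
    congr 1
    · apply Finset.sum_congr rfl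
      intro i _
      rw [hg', Fin.snoc_castSucc, p1.qs_dg, p1.h_map]
    · rw [hg', Fin.snoc_last, p2.qs_dg]
      have h2 : I (p2.map (dg (k.kap (!C.b)) 1)) (p1.map (vd C.gam 1)) (p1.map (V ⊔ U)) = 0 := by
        have h3 : I (p2.map (dg k.w 1)) (p1.map (V ⊔ U) ⊔ p1.map (vd C.gam 1)) ⊥ = 0 := by
          rw [← p1.map_sup]; exact iw _
        have h4 := (I_decomp h3).2
        rw [sup_bot_eq] at h4
        refine I_zero_mono h4 ?_ le_sup_left
        refine hkap.trans (sup_le_sup le_rfl ?_)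
        rw [p1.map_sup]; exact le_sup_right
      rw [I_zero_iff_h] at h2
      exact h2
  · exact hiA _ (by have := k.iA1 (!C.b); rwa [Bool.not_not] at this)
  · exact hiA _ (by have := k.iA2 (!C.b); rwa [Bool.not_not] at this)

/-- chains of every length exist -/
theorem Ch.exists {M : Sp} {g d : ℝ} (k : Bk M g d) (b0 : Bool) (n : ℕ) : Nonempty (Ch k b0 n) := by
  induction n with
  | zero => exact ⟨Ch.start k b0⟩
  | succ n ih =>
    obtain ⟨C⟩ := ih
    exact C.next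

end

end Pool.Agent.Helper72.LR
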