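import Pool.Agent.Helper72.LR.End

/-! LEMMA R in the exact calculus: the slope of a pair of parallel lines has zero entropy. -/

set_option autoImplicit false

namespace Pool.Agent.Helper72.LR

open Finset Filter Topology Pool.Agent.Helper69.RK Pool.Agent.Helper31.EC Pool.Agent.Helper31.EC.Sp
open Pool.Agent.Helper31.EC.QS

noncomputable section

variable {M : Sp} {g d : ℝ}

/-- a linear function of a real variable with known coefficients vanishes only if the coefficients vanish -/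
theorem lin_zero {c0 c1 x : QS M} {X : M.L} (h0 : dg c0 1 ≤ X) (h1 : dg c1 1 ≤ X) (hx : h (dg x 1) X = 1)
    (hz : c0 + c1 * x = 0) : c0 = 0 ∧ c1 = 0 := by
  have h2 := lin_small le_rfl h0 h1 hx (by rw [hz]; exact (Id M 1).zero_mem)
  exact ⟨mem_Id_one.mp h2.1, mem_Id_one.mp h2.2⟩

namespace Bk

theorem th_mul' (k : Bk M g d) (b0 b : Bool) : k.th b0 * k.x b - k.G b ∈ Id M d := by
  rcases eq_or_ne b b0 with rfl | hne
  · rw [k.th_mul b, sub_self]
    exact (Id M d).zero_mem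
  · have hb : (!b) = b0 := by cases b <;> cases b0 <;> simp_all
    have h1 := k.G_eq b
    have h2 : k.th b0 * k.x b - k.G b = -(k.G b - k.kap b * k.G (!b)) := by
      rw [k.x_eq b, hb, ← k.th_mul b0]
      ring
    rw [h2]
    exact (Id M d).neg_mem h1

/-- the intercept of the slope function of the lines of direction `u b` -/
def m (k : Bk M g d) (b0 b : Bool) : QS M := k.F b - k.th b0 * k.A b

theorem m_eq (k : Bk M g d) (b0 b : Bool) : k.m b0 b - (k.F' b - k.th b0 * k.A' b) ∈ Id M d := by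
  have h1 := k.th_mul' b0 b
  have h2 : k.m b0 b - (k.F' b - k.th b0 * k.A' b) = k.th b0 * k.x b - k.G b := by
    unfold m x G
    ring
  rw [h2]
  exact h1

theorem m_le_U (hd1 : d ≤ 1) (k : Bk M g d) (b0 b : Bool) (hth : dg (k.th b0) d ≤ k.U) :
    dg (k.m b0 b) d ≤ k.U := by
  have h1 : dg (k.m b0 b) d ≤ dg (k.A b) 1 ⊔ k.U := by
    refine (dg_sub_le _ _ hd1).trans (sup_le ?_ ?_)
    · exact ((dg_mono _ hd1).trans (k.fF b)).trans (sup_le_sup le_rfl (k.u_le b))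
    · exact (dg_mul_le _ _ hd1).trans (sup_le (hth.trans le_sup_right) ((dg_mono _ hd1).trans le_sup_left))
  have h2 : dg (k.m b0 b) d ≤ dg (k.A' b) 1 ⊔ k.U := by
    rw [dg_eq_of_sub_mem (k.m_eq b0 b) le_rfl hd1]
    refine (dg_sub_le _ _ hd1).trans (sup_le ?_ ?_)
    · exact ((dg_mono _ hd1).trans (k.fF' b)).trans (sup_le_sup le_rfl (k.u_le b))
    · exact (dg_mul_le _ _ hd1).trans (sup_le (hth.trans le_sup_right) ((dg_mono _ hd1).trans le_sup_left))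
  exact le_of_markov h1 h2 (k.iA' b)

/-- the slope and the intercept are functions of every one of the two directions -/
theorem th_le_u (hd0 : 0 < d) (hd1 : d ≤ 1) (k : Bk M g d) (b0 b : Bool) (hth' : dg (k.th b0) d ≤ k.U) :
    dg (k.th b0) d ≤ dg (k.u b) 1 ∧ dg (k.m b0 b) d ≤ dg (k.u b) 1 := by
  have hm' := k.m_le_U hd1 b0 b hth'
  -- truncations
  obtain ⟨θ, hθ1, hθ2⟩ := exists_trunc (k.th b0) hd0.le hd1
  obtain ⟨m, hm1, hm2⟩ := exists_trunc (k.m b0 b) hd0.le hd1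
  have hth : dg θ 1 ≤ k.U := hθ2.trans hth'
  have hm : dg m 1 ≤ k.U := hm2.trans hm'
  obtain ⟨a, ha⟩ : ∃ a, a = k.A b := ⟨_, rfl⟩
  obtain ⟨φ, hφ⟩ : ∃ φ, φ = k.F b := ⟨_, rfl⟩
  obtain ⟨u, hu⟩ : ∃ u, u = k.u b := ⟨_, rfl⟩
  have hφe : m + θ * a - φ ∈ Id M d := by
    have h1 : m + θ * a - φ = (m - k.m b0 b) + (θ - k.th b0) * k.A b := by
      rw [hφ, ha]
      unfold Bk.m
      ring
    rw [h1]
    exact (Id M d).add_mem hm1 ((Id M d).mul_mem_right _ hθ1)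
  have fF : dg φ 1 ≤ dg a 1 ⊔ dg u 1 := by rw [hφ, ha, hu]; exact k.fF b
  have raU : h (dg a 1) k.U = 1 := by rw [ha]; exact one_anti (k.re1 b) le_sup_right
  have uU : dg u 1 ≤ k.U := by rw [hu]; exact k.u_le b
  have iaU : I (dg a 1) k.U (dg u 1) = 0 := by
    apply I_of_one
    rw [sup_eq_left.mpr uU]
    exact raU
  obtain ⟨D⟩ := exists_CQ (S := M) ![u, a, φ] 1
  have hvd : vd ![u, a, φ] 1 = dg a 1 ⊔ dg u 1 := by
    apply le_antisymm
    · rw [vd_le]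
      intro i
      fin_cases i
      · exact le_sup_right
      · exact le_sup_left
      · exact fF
    · exact sup_le (dg_le_vd ![u, a, φ] 1 1) (dg_le_vd ![u, a, φ] 1 0)
  have cu : (D.p 1).qs u = (D.p 0).qs u := D.com 1 0 0
  have ca : (D.p 1).qs a = (D.p 0).qs a := D.com 1 0 1
  have cφ : (D.p 1).qs φ = (D.p 0).qs φ := D.com 1 0 2
  have hv : D.v = dg ((D.p 0).qs a) 1 ⊔ dg ((D.p 0).qs u) 1 := by
    unfold CQ.v
    rw [hvd, Pj.map_sup, ← Pj.qs_dg, ← Pj.qs_dg]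
  have i0 : I (dg ((D.p 0).qs a) 1) ((D.p 0).map k.U) (dg ((D.p 0).qs u) 1) = 0 := by
    rw [Pj.qs_dg, Pj.qs_dg, Pj.I_map]; exact iaU
  have i1 : I (dg ((D.p 0).qs a) 1) ((D.p 1).map k.U) (dg ((D.p 0).qs u) 1) = 0 := by
    rw [← ca, ← cu, Pj.qs_dg, Pj.qs_dg, Pj.I_map]; exact iaU
  have i2 : I ((D.p 0).map k.U) ((D.p 1).map k.U) (dg ((D.p 0).qs a) 1 ⊔ dg ((D.p 0).qs u) 1) = 0 := by
    rw [← hv]
    exact D.I_two (by decide) _ _
  obtain ⟨k1, k2⟩ := markov2 i0 i1 i2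
  obtain ⟨X, hX⟩ : ∃ X : D.W.L, X = ((D.p 0).map k.U ⊔ (D.p 1).map k.U) ⊔ dg ((D.p 0).qs u) 1 := ⟨_, rfl⟩
  have hreal : h (dg ((D.p 0).qs a) 1) X = 1 := by
    rw [I_zero_iff_h] at k1
    rw [hX, k1, Pj.qs_dg, Pj.qs_dg, Pj.h_map]
    exact one_anti raU uU
  have t : ∀ i : Fin 2, (D.p i).map k.U ≤ X := by
    intro i
    rw [hX]
    fin_cases i
    · exact le_sup_left.trans le_sup_left
    · exact le_sup_right.trans le_sup_left
  have tθ : ∀ i : Fin 2, dg ((D.p i).qs θ) 1 ≤ (D.p i).map k.U := fun i => by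
    rw [Pj.qs_dg]; exact Pj.map_mono _ hth
  have tm : ∀ i : Fin 2, dg ((D.p i).qs m) 1 ≤ (D.p i).map k.U := fun i => by
    rw [Pj.qs_dg]; exact Pj.map_mono _ hm
  have hz : ((D.p 0).qs m - (D.p 1).qs m) + ((D.p 0).qs θ - (D.p 1).qs θ) * (D.p 0).qs a ∈ Id D.W d := by
    have e0 := Pool.Agent.Helper82.TP.Pj_mem_Id (D.p 0) hφe
    have e1 := Pool.Agent.Helper82.TP.Pj_mem_Id (D.p 1) hφe
    rw [map_sub, map_add, map_mul] at e0 e1
    rw [cφ, ca] at e1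
    have e2 : ((D.p 0).qs m - (D.p 1).qs m) + ((D.p 0).qs θ - (D.p 1).qs θ) * (D.p 0).qs a =
        ((D.p 0).qs m + (D.p 0).qs θ * (D.p 0).qs a - (D.p 0).qs φ) -
        ((D.p 1).qs m + (D.p 1).qs θ * (D.p 0).qs a - (D.p 0).qs φ) := by ring
    rw [e2]
    exact (Id D.W d).sub_mem e0 e1
  obtain ⟨z0, z1⟩ := lin_small (X := X) hd1
    ((dg_sub_le _ _ le_rfl).trans (sup_le ((tm 0).trans (t 0)) ((tm 1).trans (t 1))))
    ((dg_sub_le _ _ le_rfl).trans (sup_le ((tθ 0).trans (t 0)) ((tθ 1).trans (t 1)))) hreal hz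
  have fin : ∀ f : QS M, dg f 1 ≤ k.U → (D.p 0).qs f - (D.p 1).qs f ∈ Id D.W d → dg f d ≤ dg u 1 := by
    intro f hf h0
    have h1 : dg ((D.p 0).qs f) d ≤ (D.p 0).map k.U := by
      rw [Pj.qs_dg]; exact Pj.map_mono _ ((dg_mono _ hd1).trans hf)
    have h2 : dg ((D.p 0).qs f) d ≤ (D.p 1).map k.U := by
      rw [dg_eq_of_sub_mem h0 le_rfl hd1, Pj.qs_dg]; exact Pj.map_mono _ ((dg_mono _ hd1).trans hf)
    have h3 := le_of_markov (h1.trans le_sup_left) (h2.trans le_sup_left) k2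
    rw [Pj.qs_dg, Pj.qs_dg] at h3
    exact (D.p 0).map_le.mp h3
  rw [← hu, ← dg_eq_of_sub_mem hθ1 le_rfl hd1, ← dg_eq_of_sub_mem hm1 le_rfl hd1]
  exact ⟨fin θ hth z1, fin m hm z0⟩

/-- the slope of a pair has zero entropy -/
theorem th_bot (hR : Pool.Agent.Helper69.RN.RNEC) (hg : 0 < g) (hd0 : 0 < d) (hd1 : d ≤ 1) (k : Bk M g d)
    (b0 : Bool) : dg (k.th b0) d = ⊥ := by
  have h0 := th_le_U hR hg hd0 hd1 k b0
  have h1 := (k.th_le_u hd0 hd1 b0 b0 h0).1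
  have h2 := (k.th_le_u hd0 hd1 b0 (!b0) h0).1
  exact le_antisymm (le_of_markov (h1.trans le_sup_left) (h2.trans le_sup_left) (k.iu b0)) bot_le

end Bk

end

end Pool.Agent.Helper72.LR
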