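import Pool.Agent.Helper72.LR.Rch
import Pool.Agent.Helper81.TP.Abs

/-! LEMMA R in the exact calculus: size of a known factor of a real variable; Markov chains. -/

set_option autoImplicit false

namespace Pool.Agent.Helper72.LR

open Finset Filter Topology Pool.Agent.Helper69.RK Pool.Agent.Helper31.EC Pool.Agent.Helper31.EC.Sp
open Pool.Agent.Helper31.EC.QS

noncomputable section

variable {S : Sp}

theorem mul_h_rest_le (E : ∀ k, (S.F k).Ω → Prop) (hE' : 0 < ul (S.pr (fun k ω => ¬ E k ω))) (x y : S.L) :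
    ul (S.pr (fun k ω => ¬ E k ω)) * h (restL _ hE' x) (restL _ hE' y) ≤ h x y := by
  by_cases hE : 0 < ul (S.pr E)
  · have h1 := h_split E hE hE' x y
    rw [ul_pr_compl]
    have h2 := mul_nonneg hE.le (h_nonneg (restL E hE x) (restL E hE y))
    linarith
  · have h1 : Typ (fun k ω => ¬ E k ω) := Pool.Agent.Helper25.EC.typ_not hE
    rw [ul_pr_typ _ h1, one_mul]
    exact (h_restL_typ _ h1 x y).le

/-- if `a` is real over `X`, `x - y` is known to `X` and the digits of `(x - y) a` up to level `d` have little entropy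
over `X`, then `x` and `y` agree up to level `s < d` up to little entropy -/
theorem size_le_d {a x y : QS S} {X : S.L} {s d e : ℝ} (hs0 : 0 ≤ s) (hsd : s < d) (hd1 : d ≤ 1)
    (ha : h (dg a 1) X = 1) (hc : dg (x - y) 1 ≤ X) (he : h (dg ((x - y) * a) d) X ≤ e) :
    h (dg x s) (dg y s) ≤ e / (d - s) := by
  have he0 : 0 ≤ e := (h_nonneg _ _).trans he
  have h1s : 0 < d - s := by linarith
  have hs1 : s < 1 := by linarith
  obtain ⟨c, hcd⟩ : ∃ c, c = x - y := ⟨_, rfl⟩
  rw [← hcd] at hc he
  obtain ⟨cR, hcR⟩ := mk_surj c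
  obtain ⟨aR, haR⟩ := mk_surj a
  obtain ⟨E, hEd⟩ : ∃ E : ∀ k, (S.F k).Ω → Prop, E = fun k ω => |TR.ev cR k ω| ≤ S.dl s k := ⟨_, rfl⟩
  have hle : ∀ z w : QS S, h (dg z s) (dg w s) ≤ s := fun z w => (h_le_H _ _).trans (H_dg_le z hs0)
  rcases typ_or E with ht | hE'
  · have h2 : c ∈ Id S s := by
      rw [← hcR, mk_mem_Id hs1.le]
      refine ⟨E, fun _ => 1, ht, S.Sub_const zero_le_one, ?_⟩
      refine Eventually.of_forall fun k ω _ hω => ?_
      rw [TR.ev_zero, sub_zero, one_mul]
      rw [hEd] at hω
      exact hω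
    rw [hcd] at h2
    rw [dg_eq_of_sub_mem h2 le_rfl hs1.le, h_self]
    positivity
  · -- on the complement `c` is large
    have k1 : d - s ≤ h (restL _ hE' (dg (c * a) d)) (restL _ hE' X) := by
      have hmem := Pool.Agent.Helper25.EC.rest_mem (fun k ω => ¬ E k ω) hE'
      have b1 : TR.dg (TR.rest (fun k ω => ¬ E k ω) aR) (d - 0 - s) ≤
          TR.dg (1 * TR.rest (fun k ω => ¬ E k ω) aR * TR.rest (fun k ω => ¬ E k ω) cR) d ⊔
            restL _ hE' X := by
        have := Pool.Agent.Helper81.TP.quot_dg (1 : TR (S.rest (fun k ω => ¬ E k ω)))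
          (TR.rest (fun k ω => ¬ E k ω) aR) (TR.rest (fun k ω => ¬ E k ω) cR) (restL _ hE' X) d 0 0 s
          (by linarith) ⟨fun _ => 1, Sub_const _ zero_le_one, Typ_true.mono (Eventually.of_forall fun k ω _ _ => by
            rw [TR.ev_one]; norm_num)⟩
          (by
            have := (TR.Kn (S.rest fun k ω => ¬ E k ω) 1 (restL _ hE' X)).one_mem
            exact this)
          (by
            have h3 := (mem_Id_nonpos (f := mk (TR.rest (fun k ω => ¬ E k ω) aR)) (r := 0) le_rfl)
            rwa [mk_mem_Id zero_le_one] at h3)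
          (by
            rw [sub_zero, TR.rest_dg _ hE', ← dg_mk cR hd1, hcR]
            exact restL_mono _ hE' ((dg_mono c hd1).trans hc))
          (by
            filter_upwards [hmem] with k hk ω m
            have := (hk ω m).2
            rw [hEd] at this
            rw [zero_add]
            exact lt_of_not_ge this)
        exact this
      have b2 : TR.dg (TR.rest (fun k ω => ¬ E k ω) aR) (d - 0 - s) = restL _ hE' (dg a (d - s)) := by
        rw [TR.rest_dg _ hE', sub_zero, ← dg_mk aR (by linarith), haR]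
      have b3 : TR.dg (1 * TR.rest (fun k ω => ¬ E k ω) aR * TR.rest (fun k ω => ¬ E k ω) cR) d =
          restL _ hE' (dg (c * a) d) := by
        rw [one_mul, ← map_mul, TR.rest_dg _ hE', ← dg_mk (aR * cR) hd1, map_mul, haR, hcR, mul_comm]
      rw [b2, b3] at b1
      have b4 : h (restL _ hE' (dg a 1)) (restL _ hE' X) = 1 := by
        apply h_rest_max (fun k ω => ¬ E k ω) hE' ha
        intro E1 hE1
        rw [← rest_dg]
        exact h_dg_le_one _ _
      have b5 : h (restL _ hE' (dg a 1)) (restL _ hE' X) ≤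
          h (restL _ hE' (dg a 1)) (restL _ hE' (dg a (d - s))) + h (restL _ hE' (dg a (d - s))) (restL _ hE' X) :=
        h_triangle' _ _ _
      have b6 : h (restL _ hE' (dg a 1)) (restL _ hE' (dg a (d - s))) ≤ 1 - (d - s) := by
        rw [← rest_dg, ← rest_dg]
        exact h_dg_dg (rest _ hE' a) (show d - s ≤ 1 by linarith)
      have b7 := h_mono (B := restL _ hE' X) b1
      rw [h_sup_right_of_le le_rfl] at b7
      linarith
    have k2 := mul_h_rest_le E hE' (dg (c * a) d) X
    have hP0 := hE'.le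
    have k3 : ul (S.pr (fun k ω => ¬ E k ω)) * (d - s) ≤ e := by
      have := mul_le_mul_of_nonneg_left k1 hP0
      linarith
    have k4 : ul (S.pr (fun k ω => ¬ E k ω)) ≤ e / (d - s) := by
      rw [le_div_iff₀ h1s]; exact k3
    refine le_trans ?_ k4
    by_cases hE : 0 < ul (S.pr E)
    · have k5 := h_split E hE hE' (dg x s) (dg y s)
      have k6 : h (restL E hE (dg x s)) (restL E hE (dg y s)) = 0 := by
        have hmem := Pool.Agent.Helper25.EC.rest_mem E hE
        have h2 : rest E hE c ∈ Id (S.rest E) s := by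
          rw [← hcR, rest_mk, mk_mem_Id hs1.le]
          refine ⟨fun _ _ => True, fun _ => 1, Typ_true, Sub_const _ zero_le_one, ?_⟩
          filter_upwards [hmem] with k hk ω m _
          have := (hk ω m).2
          rw [hEd] at this
          rw [TR.ev_zero, sub_zero, one_mul]
          exact this
        rw [hcd, map_sub] at h2
        rw [← rest_dg, ← rest_dg, dg_eq_of_sub_mem h2 le_rfl hs1.le, h_self]
      have k7 : h (restL _ hE' (dg x s)) (restL _ hE' (dg y s)) ≤ 1 := by
        rw [← rest_dg, ← rest_dg]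
        exact ((h_le_H _ _).trans (H_dg_le _ hs0)).trans hs1.le
      rw [k6, mul_zero, zero_add, ← ul_pr_compl] at k5
      rw [k5]
      have := mul_le_mul_of_nonneg_left k7 hP0
      linarith
    · have h1 : Typ (fun k ω => ¬ E k ω) := Pool.Agent.Helper25.EC.typ_not hE
      rw [ul_pr_typ _ h1]
      exact (hle x y).trans hs1.le

/-- two conditionally independent informations over `a`, each independent of `a` -/
theorem markov2 {L : Type*} [PM L] {a X Y U : L} (h1 : I a X U = 0) (h2 : I a Y U = 0) (h3 : I X Y (a ⊔ U) = 0) :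
    I a (X ⊔ Y) U = 0 ∧ I X Y U = 0 := by
  have e1 := I_chain_right a X Y U
  have e2 := I_exchange Y X U a
  have n1 := I_nonneg Y a (X ⊔ U)
  have n2 := I_nonneg Y X U
  rw [I_comm Y X U, I_comm Y a (X ⊔ U), I_comm Y a U, I_comm Y X (a ⊔ U), h2, h3] at e2
  rw [I_comm Y a (X ⊔ U)] at n1
  rw [I_comm Y X U] at n2
  constructor <;> linarith

end

end Pool.Agent.Helper72.LR
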