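import Pool.Agent.Helper72.LR.Blk
import Pool.Agent.Helper72.LR.Sz
import Pool.Agent.Helper69.RN.St

/-! LEMMA R in the exact calculus: the slope of a pair of parallel lines is a function of the directions. -/

set_option autoImplicit false

namespace Pool.Agent.Helper72.LR

open Finset Filter Topology Pool.Agent.Helper69.RK Pool.Agent.Helper31.EC Pool.Agent.Helper31.EC.Sp
open Pool.Agent.Helper31.EC.QS

noncomputable section

variable {M : Sp} {g d : ℝ}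

namespace Bk

/-- the slope of the pair of parallel lines -/
def th (k : Bk M g d) (b : Bool) : QS M := k.G b * Ring.inverse (k.x b)

theorem th_mul (k : Bk M g d) (b : Bool) : k.th b * k.x b = k.G b := by
  unfold th
  rw [mul_assoc, Ring.inverse_mul_cancel (k.x b) (k.ux b), mul_one]

theorem th_le (k : Bk M g d) (b : Bool) : dg (k.th b) 1 ≤ dg (k.x b) 1 ⊔ dg (k.G b) 1 := by
  refine (dg_mul_le _ _ le_rfl).trans (sup_le le_sup_right ?_)
  exact (dg_inverse_le (k.ux b) le_rfl).trans le_sup_left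

end Bk

/-- real families over a smaller information -/
theorem one_anti {f : QS M} {A B : M.L} (h1 : h (dg f 1) B = 1) (hAB : A ≤ B) : h (dg f 1) A = 1 := by
  exact le_antisymm (h_dg_le_one _ _) (h1.ge.trans (h_anti hAB))

/-- RING NOISE applied to a chain -/
theorem ring_chain (hR : Pool.Agent.Helper69.RN.RNEC) (hg : 0 < g) (hd1 : d ≤ 1) (k : Bk M g d) (b0 : Bool) {e : ℝ}
    (he : 0 < e) : ∃ (n : ℕ) (C : Ch k b0 n),
    h (dg (C.pl.qs (k.F C.b) - C.pf.qs (k.th b0) * C.pl.qs (k.A C.b)) d)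
      (C.pf.map (dg (k.x b0) 1 ⊔ dg (k.G b0) 1 ⊔ k.U)) ≤ e := by
  obtain ⟨j, hj⟩ := hR (min g 1) e (lt_min hg one_pos) (min_le_right _ _) he
  obtain ⟨C⟩ := Ch.exists k b0 j
  refine ⟨j, C, ?_⟩
  obtain ⟨V, hV⟩ : ∃ V : C.W.L, V = C.pf.map (dg (k.x b0) 1 ⊔ dg (k.G b0) 1) := ⟨_, rfl⟩
  obtain ⟨U, hU⟩ : ∃ U : C.W.L, U = C.pf.map k.U := ⟨_, rfl⟩
  have hVU : C.pf.map (dg (k.x b0) 1 ⊔ dg (k.G b0) 1 ⊔ k.U) = V ⊔ U := by rw [C.pf.map_sup, hV, hU]
  have iA := C.iA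
  have iA' := C.iA'
  have ind := C.ind
  have rch := C.rch
  rw [← hV, ← hU] at iA iA'
  rw [hVU] at ind ⊢
  have rch' : ∀ i, Rch (C.gam i) (V ⊔ U) g := fun i => by rw [← hVU]; exact rch i
  obtain ⟨a, ha⟩ : ∃ a, a = C.pl.qs (k.A C.b) := ⟨_, rfl⟩
  obtain ⟨a', ha'⟩ : ∃ a', a' = C.pl.qs (k.A' C.b) := ⟨_, rfl⟩
  obtain ⟨φ, hφ⟩ : ∃ φ, φ = C.pl.qs (k.F C.b) := ⟨_, rfl⟩
  obtain ⟨φ', hφ'⟩ : ∃ φ', φ' = C.pl.qs (k.F' C.b) := ⟨_, rfl⟩
  obtain ⟨θ, hθ⟩ : ∃ θ, θ = C.pf.qs (k.th b0) := ⟨_, rfl⟩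
  obtain ⟨m, hm⟩ : ∃ m, m = φ - θ * a := ⟨_, rfl⟩
  rw [← hφ, ← hθ, ← ha, ← hm]
  rw [← C.pl.qs_dg, ← ha] at iA
  rw [← C.pl.qs_dg, ← ha'] at iA'
  have hul : ∀ c, dg (C.pl.qs (k.u c)) 1 ≤ U := by
    intro c
    rw [← C.hu c, C.pf.qs_dg, hU]
    exact C.pf.map_mono (k.u_le c)
  have hφa : dg φ 1 ≤ dg a 1 ⊔ U := by
    rw [hφ, ha, C.pl.qs_dg, C.pl.qs_dg]
    refine (C.pl.map_mono (k.fF C.b)).trans ?_
    rw [C.pl.map_sup]
    refine sup_le_sup le_rfl ?_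
    rw [← C.pl.qs_dg]
    exact hul _
  have hφa' : dg φ' 1 ≤ dg a' 1 ⊔ U := by
    rw [hφ', ha', C.pl.qs_dg, C.pl.qs_dg]
    refine (C.pl.map_mono (k.fF' C.b)).trans ?_
    rw [C.pl.map_sup]
    refine sup_le_sup le_rfl ?_
    rw [← C.pl.qs_dg]
    exact hul _
  have hθV : dg θ 1 ≤ V := by
    rw [hθ, C.pf.qs_dg, hV]
    exact C.pf.map_mono (k.th_le b0)
  have hma : dg m d ≤ dg a 1 ⊔ (V ⊔ U) := by
    refine (dg_mono m hd1).trans ?_
    rw [hm]
    refine (dg_sub_le _ _ le_rfl).trans (sup_le (hφa.trans ?_) ?_)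
    · exact sup_le_sup le_rfl le_sup_right
    · refine (dg_mul_le _ _ le_rfl).trans (sup_le ?_ le_sup_left)
      exact (hθV.trans le_sup_left).trans le_sup_right
  -- the second line
  have hzz : a' = a + (∏ i, C.gam i) * C.pf.qs (k.x b0) := by
    rw [← C.hx, ha, ha']
    unfold Bk.x
    rw [map_sub]; ring
  have hmm : m - (φ' - θ * a') ∈ Id C.W d := by
    have h1 := C.hG
    have h2 : C.pf.qs (k.G b0) = θ * C.pf.qs (k.x b0) := by
      rw [hθ, ← map_mul, k.th_mul]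
    have h3 : m - (φ' - θ * a') = -(C.pl.qs (k.G C.b) - (∏ i, C.gam i) * C.pf.qs (k.G b0)) := by
      have h4 : C.pl.qs (k.G C.b) = φ' - φ := by
        rw [hφ, hφ']
        unfold Bk.G
        rw [map_sub]
      rw [h4, h2, hm, hzz]
      ring
    rw [h3]
    exact (Id C.W d).neg_mem h1
  have hma' : dg m d ≤ dg a' 1 ⊔ (V ⊔ U) := by
    rw [dg_eq_of_sub_mem hmm le_rfl hd1]
    refine (dg_mono _ hd1).trans ?_
    refine (dg_sub_le _ _ le_rfl).trans (sup_le (hφa'.trans ?_) ?_)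
    · exact sup_le_sup le_rfl le_sup_right
    · refine (dg_mul_le _ _ le_rfl).trans (sup_le ?_ le_sup_left)
      exact (hθV.trans le_sup_left).trans le_sup_right
  -- independence over `m`
  have jj : ∀ f : QS C.W, dg m d ≤ dg f 1 ⊔ (V ⊔ U) → I (dg f 1) (vd C.gam 1 ⊔ V) U = 0 →
      I (dg m d) (vd C.gam 1) (V ⊔ U) = 0 ∧ I (dg f 1) (vd C.gam 1) (dg m d ⊔ (V ⊔ U)) = 0 := by
    intro f hf h0
    have h1 : I (dg f 1) (V ⊔ vd C.gam 1) U = 0 := by rw [sup_comm V]; exact h0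
    have h2 := (I_decomp h1).2
    have h3 : I (dg m d ⊔ dg f 1) (vd C.gam 1) (V ⊔ U) = 0 :=
      I_zero_mono h2 (sup_le hf le_sup_left) le_sup_left
    have h4 := I_chain (dg m d) (dg f 1) (vd C.gam 1) (V ⊔ U)
    have h5 := I_nonneg (dg m d) (vd C.gam 1) (V ⊔ U)
    have h6 := I_nonneg (dg f 1) (vd C.gam 1) (dg m d ⊔ (V ⊔ U))
    constructor <;> linarith
  have j1 := jj a hma iA
  have j2 := jj a' hma' iA'
  have ki : ∀ i, I (dg (C.gam i) 1) (dg m d) (V ⊔ U) = 0 := by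
    intro i
    rw [I_comm]
    exact I_zero_mono j1.1 le_sup_left ((dg_le_vd C.gam 1 i).trans le_sup_left)
  have hy : dg (C.pf.qs (k.x b0)) 1 ≤ dg m d ⊔ (V ⊔ U) := by
    rw [C.pf.qs_dg]
    have h1 : C.pf.map (dg (k.x b0) 1) ≤ V := by
      rw [hV]; exact C.pf.map_mono le_sup_left
    exact (h1.trans le_sup_left).trans le_sup_right
  have key := hj C.W (dg m d ⊔ (V ⊔ U)) a a' (C.pf.qs (k.x b0)) C.gam hy ((k.ux b0).map C.pf.qs) hzz j1.2 j2.2 (by
      have h1 := j1.1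
      rw [I_comm, I_zero_iff_h] at h1
      rw [h1, ind]
      apply Finset.sum_congr rfl
      intro i _
      have h2 := ki i
      rw [I_zero_iff_h] at h2
      exact h2.symm) (by
      intro i E hE r h0 h1
      have h2 := ((rch' i).indep (ki i)) C.W (Pj.id C.W) E hE r h0 h1
      rw [Pj.id_map, Pj.id_map] at h2
      exact (mul_le_mul_of_nonneg_right (min_le_left _ _) h0).trans h2)
  have e1 := h_chain (dg m d) (dg a 1) (V ⊔ U)
  have e2 : h (dg m d ⊔ dg a 1) (V ⊔ U) ≤ 1 := by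
    have h1 : h (dg m d ⊔ dg a 1) (V ⊔ U) = h (dg a 1) (V ⊔ U) :=
      h_congr_left (sup_le hma le_sup_left) (le_sup_right.trans le_sup_left)
    rw [h1]
    exact h_dg_le_one _ _
  linarith

/-- the slope of a pair is a function of the two directions -/
theorem th_le_U (hR : Pool.Agent.Helper69.RN.RNEC) (hg : 0 < g) (hd0 : 0 < d) (hd1 : d ≤ 1) (k : Bk M g d)
    (b0 : Bool) : dg (k.th b0) d ≤ k.U := by
  -- for every `e`, `s`
  have main : ∀ e s : ℝ, 0 < e → 0 ≤ s → s < d → h (dg (k.th b0) s) k.U ≤ 2 * e / (d - s) := by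
    intro e s he hs0 hsd
    have hs1 : s < 1 := hsd.trans_le hd1
    obtain ⟨n, C, hC⟩ := ring_chain hR hg hd1 k b0 he
    obtain ⟨V, hV⟩ : ∃ V : C.W.L, V = C.pf.map (dg (k.x b0) 1 ⊔ dg (k.G b0) 1) := ⟨_, rfl⟩
    obtain ⟨U, hU⟩ : ∃ U : C.W.L, U = C.pf.map k.U := ⟨_, rfl⟩
    have hVU : C.pf.map (dg (k.x b0) 1 ⊔ dg (k.G b0) 1 ⊔ k.U) = V ⊔ U := by rw [C.pf.map_sup, hV, hU]
    obtain ⟨a, ha⟩ : ∃ a, a = C.pl.qs (k.A C.b) := ⟨_, rfl⟩
    obtain ⟨φ, hφ⟩ : ∃ φ, φ = C.pl.qs (k.F C.b) := ⟨_, rfl⟩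
    obtain ⟨θ, hθ⟩ : ∃ θ, θ = C.pf.qs (k.th b0) := ⟨_, rfl⟩
    obtain ⟨m, hm⟩ : ∃ m, m = φ - θ * a := ⟨_, rfl⟩
    have iA := C.iA
    rw [← hV, ← hU, ← C.pl.qs_dg, ← ha] at iA
    rw [← hφ, ← hθ, ← ha, ← hm, hVU] at hC
    have hul : ∀ c, dg (C.pl.qs (k.u c)) 1 ≤ U := by
      intro c
      rw [← C.hu c, C.pf.qs_dg, hU]
      exact C.pf.map_mono (k.u_le c)
    have hφa : dg φ 1 ≤ dg a 1 ⊔ U := by
      rw [hφ, ha, C.pl.qs_dg, C.pl.qs_dg]
      refine (C.pl.map_mono (k.fF C.b)).trans ?_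
      rw [C.pl.map_sup]
      refine sup_le_sup le_rfl ?_
      rw [← C.pl.qs_dg]
      exact hul _
    have hθV : dg θ 1 ≤ V := by
      rw [hθ, C.pf.qs_dg, hV]
      exact C.pf.map_mono (k.th_le b0)
    -- `a` is real over `V, U`
    have iaV : I (dg a 1) V U = 0 := I_zero_mono iA le_sup_left (le_sup_right.trans le_sup_left)
    have raw : h (dg a 1) U = 1 := by
      have h1 := k.re1 C.b
      have h2 : h (dg (k.A C.b) 1) k.U = 1 := one_anti h1 le_sup_right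
      have h3 : C.pl.map k.U = U := by
        rw [hU]
        unfold Bk.U
        rw [C.pl.map_sup, C.pf.map_sup, ← C.pl.qs_dg, ← C.pl.qs_dg, ← C.pf.qs_dg, ← C.pf.qs_dg, C.hu, C.hu]
      rw [ha, C.pl.qs_dg, ← h3, C.pl.h_map]
      exact h2
    -- two copies given the line and the directions
    obtain ⟨D⟩ := exists_CQ (S := C.W) ![C.pf.qs (k.u true), C.pf.qs (k.u false), a, φ] 1
    have hU' : U = dg (C.pf.qs (k.u true)) 1 ⊔ dg (C.pf.qs (k.u false)) 1 := by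
      rw [hU]
      unfold Bk.U
      rw [C.pf.map_sup, ← C.pf.qs_dg, ← C.pf.qs_dg]
    have hvd : vd ![C.pf.qs (k.u true), C.pf.qs (k.u false), a, φ] 1 = dg a 1 ⊔ U := by
      apply le_antisymm
      · rw [vd_le]
        intro i
        fin_cases i
        · show dg (C.pf.qs (k.u true)) 1 ≤ _
          rw [hU']; exact le_sup_left.trans le_sup_right
        · show dg (C.pf.qs (k.u false)) 1 ≤ _
          rw [hU']; exact le_sup_right.trans le_sup_right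
        · exact le_sup_left
        · exact hφa
      · rw [hU']
        exact sup_le (dg_le_vd ![C.pf.qs (k.u true), C.pf.qs (k.u false), a, φ] 1 2)
          (sup_le (dg_le_vd ![C.pf.qs (k.u true), C.pf.qs (k.u false), a, φ] 1 0)
            (dg_le_vd ![C.pf.qs (k.u true), C.pf.qs (k.u false), a, φ] 1 1))
    have ca : (D.p 1).qs a = (D.p 0).qs a := D.com 1 0 2
    have cφ : (D.p 1).qs φ = (D.p 0).qs φ := D.com 1 0 3
    have cU : (D.p 1).map U = (D.p 0).map U := by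
      rw [hU', Pj.map_sup, Pj.map_sup, ← Pj.qs_dg, ← Pj.qs_dg, ← Pj.qs_dg, ← Pj.qs_dg]
      have h1 : (D.p 1).qs (C.pf.qs (k.u true)) = (D.p 0).qs (C.pf.qs (k.u true)) := D.com 1 0 0
      have h2 : (D.p 1).qs (C.pf.qs (k.u false)) = (D.p 0).qs (C.pf.qs (k.u false)) := D.com 1 0 1
      rw [h1, h2]
    have hv : D.v = dg ((D.p 0).qs a) 1 ⊔ (D.p 0).map U := by
      unfold CQ.v
      rw [hvd, Pj.map_sup, ← Pj.qs_dg]
    have i0 : I (dg ((D.p 0).qs a) 1) ((D.p 0).map V) ((D.p 0).map U) = 0 := by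
      rw [Pj.qs_dg, Pj.I_map]; exact iaV
    have i1 : I (dg ((D.p 0).qs a) 1) ((D.p 1).map V) ((D.p 0).map U) = 0 := by
      rw [← ca, ← cU, Pj.qs_dg, Pj.I_map]; exact iaV
    have i2 : I ((D.p 0).map V) ((D.p 1).map V) (dg ((D.p 0).qs a) 1 ⊔ (D.p 0).map U) = 0 := by
      rw [← hv]
      exact D.I_two (by decide) _ _
    obtain ⟨k1, k2⟩ := markov2 i0 i1 i2
    -- the size estimate
    obtain ⟨X, hX⟩ : ∃ X : D.W.L, X = ((D.p 0).map V ⊔ (D.p 1).map V) ⊔ (D.p 0).map U := ⟨_, rfl⟩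
    have hreal : h (dg ((D.p 0).qs a) 1) X = 1 := by
      rw [I_zero_iff_h] at k1
      rw [hX, k1, Pj.qs_dg, Pj.h_map]
      exact raw
    have t0 : dg ((D.p 0).qs θ) 1 ≤ (D.p 0).map V := by rw [Pj.qs_dg]; exact Pj.map_mono _ hθV
    have t1 : dg ((D.p 1).qs θ) 1 ≤ (D.p 1).map V := by rw [Pj.qs_dg]; exact Pj.map_mono _ hθV
    have hcX : dg ((D.p 0).qs θ - (D.p 1).qs θ) 1 ≤ X := by
      rw [hX]
      refine (dg_sub_le _ _ le_rfl).trans (sup_le (t0.trans ?_) (t1.trans ?_))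
      · exact le_sup_left.trans le_sup_left
      · exact le_sup_right.trans le_sup_left
    have hprod : ((D.p 0).qs θ - (D.p 1).qs θ) * (D.p 0).qs a = (D.p 1).qs m - (D.p 0).qs m := by
      rw [hm, map_sub, map_sub, map_mul, map_mul, ca, cφ]
      ring
    have hm0 : h (dg ((D.p 0).qs m) d) X ≤ e := by
      have h1 : h (dg ((D.p 0).qs m) d) ((D.p 0).map (V ⊔ U)) ≤ e := by
        rw [Pj.qs_dg, Pj.h_map]; exact hC
      refine (h_anti ?_).trans h1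
      rw [hX, Pj.map_sup]
      exact sup_le (le_sup_left.trans le_sup_left) le_sup_right
    have hm1 : h (dg ((D.p 1).qs m) d) X ≤ e := by
      have h1 : h (dg ((D.p 1).qs m) d) ((D.p 1).map (V ⊔ U)) ≤ e := by
        rw [Pj.qs_dg, Pj.h_map]; exact hC
      refine (h_anti ?_).trans h1
      rw [hX, Pj.map_sup, cU]
      exact sup_le (le_sup_right.trans le_sup_left) le_sup_right
    have hsmall : h (dg (((D.p 0).qs θ - (D.p 1).qs θ) * (D.p 0).qs a) d) X ≤ 2 * e := by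
      rw [hprod]
      have h1 := h_mono (B := X) (dg_sub_le ((D.p 1).qs m) ((D.p 0).qs m) hd1)
      have h2 := h_sup_le (dg ((D.p 1).qs m) d) (dg ((D.p 0).qs m) d) X
      linarith
    have hfin := size_le_d hs0 hsd hd1 hreal hcX hsmall
    -- back to the first block
    have e1 : h (dg (k.th b0) s) k.U = h (dg ((D.p 0).qs θ) s) ((D.p 0).map U) := by
      rw [hθ, hU, Pj.qs_dg, Pj.qs_dg, Pj.h_map, Pj.h_map]
    have e2 : I (dg ((D.p 0).qs θ) s) ((D.p 1).map V) ((D.p 0).map U) = 0 := by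
      refine I_zero_mono k2 ?_ le_sup_left
      exact ((dg_mono _ hs1.le).trans t0).trans le_sup_left
    rw [I_zero_iff_h] at e2
    rw [e1, ← e2]
    refine (h_anti ?_).trans hfin
    exact ((dg_mono _ hs1.le).trans t1).trans le_sup_left
  -- closure
  rw [← h_le_zero_iff]
  apply le_of_forall_pos_le_add
  intro δ hδ
  obtain ⟨s, hs0, hs1, hsδ⟩ : ∃ s : ℝ, 0 ≤ s ∧ s < d ∧ d - s ≤ δ / 2 := by
    rcases le_total δ (2 * d) with h1 | h1
    · exact ⟨d - δ / 2, by linarith, by linarith, by linarith⟩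
    · exact ⟨0, le_rfl, hd0, by linarith⟩
  have h1s : 0 < d - s := by linarith
  have h1 := main (δ * (d - s) / 4) s (by positivity) hs0 hs1
  have h2 : 2 * (δ * (d - s) / 4) / (d - s) = δ / 2 := by field_simp; ring
  rw [h2] at h1
  have h3 := h_triangle' (dg (k.th b0) d) (dg (k.th b0) s) k.U
  have h4 := h_dg_dg (k.th b0) hs1.le
  linarith

end

end Pool.Agent.Helper72.LR
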