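import Pool.Agent.Helper72.LR.Cst

/-! LEMMA R in the exact calculus: construction of the basic block. -/

set_option autoImplicit false

namespace Pool.Agent.Helper72.LR

open Finset Filter Topology Pool.Agent.Helper69.RK Pool.Agent.Helper31.EC Pool.Agent.Helper31.EC.Sp
open Pool.Agent.Helper31.EC.QS

noncomputable section

/-- a line `w` and two more directions at a point of it -/
structure L3 (W : Sp) (g d : ℝ) where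
  t : QS W
  y : QS W
  k0 : QS W
  k1 : QS W
  w : QS W
  u : Bool → QS W
  Fw : QS W
  F : Bool → QS W
  eF : ∀ b, F b - (k0 + u b * k1) ∈ Id W d
  eFw : Fw - (k0 + w * k1) ∈ Id W d
  it : h (dg t 1) (dg w 1 ⊔ dg (y - t * w) 1 ⊔ (dg (u true) 1 ⊔ dg (u false) 1)) = 1
  iL : I (dg w 1 ⊔ dg (y - t * w) 1) (dg (u true) 1 ⊔ dg (u false) 1) ⊥ = 0
  hF : ∀ b, dg (F b) 1 ≤ dg (y - t * u b) 1 ⊔ dg (u b) 1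
  hFw : dg Fw 1 ≤ dg (y - t * w) 1 ⊔ dg w 1
  eA : ∀ b, h (dg (y - t * u b) 1) (dg (u b) 1) = h (dg (y - t * w) 1) (dg w 1)
  iu : I (dg (u true) 1) (dg (u false) 1) ⊥ = 0
  rw : Rch w ⊥ g
  ru : ∀ b, Rch (u b) ⊥ g

/-- entropy counts in the block -/
theorem count {L : Type*} [PM L] {W Aw U T T' X X' Y Y' : L} (hTT : h (T ⊔ T') (W ⊔ Aw ⊔ U) = 2)
    (iL : I (W ⊔ Aw) U ⊥ = 0) (hT1 : ∀ C : L, h T C ≤ 1)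
    (hY1 : ∀ C : L, h Y C ≤ 1) (hY1' : ∀ C : L, h Y' C ≤ 1)
    (hA1 : h Aw W ≤ 1) (hX : h X U ≤ h Aw W) (hX' : h X' U ≤ h Aw W)
    (r1 : Aw ≤ X ⊔ T ⊔ W ⊔ U) (r2 : T' ≤ X' ⊔ Aw ⊔ W ⊔ U) (r3 : T ≤ X ⊔ Y ⊔ U) (r4 : T' ≤ Y' ⊔ Aw ⊔ W ⊔ U)
    (r5 : T' ≤ X' ⊔ Y' ⊔ U) (r6 : Aw ≤ X' ⊔ T' ⊔ W ⊔ U) (r7 : T ≤ Y ⊔ Aw ⊔ W ⊔ U) :
    I W (X ⊔ X' ⊔ U) ⊥ = 0 ∧ I X X' U = 0 ∧ 1 ≤ h X (W ⊔ (Y ⊔ Y') ⊔ U) ∧ 1 ≤ h X' (W ⊔ (Y ⊔ Y') ⊔ U) := by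
  have hLU : h (W ⊔ Aw) U = H (W ⊔ Aw) := by
    have := (I_zero_iff_h.mp iL)
    rwa [sup_bot_eq, h_bot] at this
  have hWU : h W U = H W := by
    have h1 : I W U ⊥ = 0 := I_zero_mono iL (le_sup_left.trans le_sup_left) le_sup_left
    have := (I_zero_iff_h.mp h1)
    rwa [sup_bot_eq, h_bot] at this
  have hch : H (W ⊔ Aw) = H W + h Aw W := H_chain W Aw
  have hAU : h Aw (W ⊔ U) = h Aw W := by
    have h1 := h_chain W Aw U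
    linarith
  have hS : h (T ⊔ T') (W ⊔ U ⊔ Aw) = 2 := by
    rw [sup_right_comm]; exact hTT
  -- first count
  have c1 : H W + h Aw W + 2 ≤ h (W ⊔ X ⊔ X' ⊔ T) U := by
    have h1 : W ⊔ Aw ⊔ (T ⊔ T') ≤ (W ⊔ X ⊔ X' ⊔ T) ⊔ U := by
      have s1 : Aw ≤ (W ⊔ X ⊔ X' ⊔ T) ⊔ U := by order
      have s2 : T' ≤ (W ⊔ X ⊔ X' ⊔ T) ⊔ U := by order
      order
    have h2 : h (W ⊔ Aw ⊔ (T ⊔ T')) U ≤ h (W ⊔ X ⊔ X' ⊔ T) U := by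
      rw [← h_sup_right_of_le (A := W ⊔ X ⊔ X' ⊔ T) (le_refl U)]
      exact h_mono h1
    have h3 := h_chain (W ⊔ Aw) (T ⊔ T') U
    rw [hTT, hLU] at h3
    linarith
  have c2 : h (W ⊔ X ⊔ X' ⊔ T) U ≤ h W U + h X U + h X' U + 1 := by
    have h1 := h_sup_le (W ⊔ X ⊔ X') T U
    have h2 := h_sup_le (W ⊔ X) X' U
    have h3 := h_sup_le W X U
    have h4 := hT1 U
    linarith
  have hA : h Aw W = 1 := by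
    apply le_antisymm hA1
    linarith
  rw [hA] at c1 hX hX' hAU
  -- W independent
  have c3 : H W ≤ h W (X ⊔ X' ⊔ U) := by
    have h1 : h (W ⊔ X ⊔ X' ⊔ T) U = h (X ⊔ X' ⊔ T) U + h W (X ⊔ X' ⊔ T ⊔ U) := by
      rw [← h_chain]
      congr 1
      ac_rfl
    have h2 : h (X ⊔ X' ⊔ T) U ≤ 3 := by
      have h1 := h_sup_le (X ⊔ X') T U
      have h2 := h_sup_le X X' U
      have h3 := hT1 U
      linarith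
    have h3 : h W (X ⊔ X' ⊔ T ⊔ U) ≤ h W (X ⊔ X' ⊔ U) := h_anti (by order)
    linarith
  have c4 : I W (X ⊔ X' ⊔ U) ⊥ = 0 := by
    apply le_antisymm _ (I_nonneg _ _ _)
    rw [I_eq, sup_bot_eq, h_bot]
    linarith
  have c5 : 2 ≤ h (X ⊔ X') U := by
    have h1 : h (W ⊔ X ⊔ X' ⊔ T) U ≤ h W U + h (X ⊔ X') U + 1 := by
      have h1 := h_sup_le (W ⊔ (X ⊔ X')) T U
      have h2 := h_sup_le W (X ⊔ X') U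
      have h3 := hT1 U
      rw [← sup_assoc] at h1 h2
      linarith
    linarith
  have c6 : I X X' U = 0 := by
    apply le_antisymm _ (I_nonneg _ _ _)
    rw [I_eq']
    have h1 := h_chain X X' U
    linarith
  have d0 : h (Aw ⊔ (T ⊔ T')) (W ⊔ U) = 3 := by
    have h1 := h_chain Aw (T ⊔ T') (W ⊔ U)
    have h2 : Aw ⊔ (W ⊔ U) = W ⊔ U ⊔ Aw := sup_comm _ _
    rw [h2, hS, hAU] at h1
    linarith
  have d3 : h (Y ⊔ Y') (W ⊔ U) ≤ 2 := by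
    have h1 := h_sup_le Y Y' (W ⊔ U)
    have h2 := hY1 (W ⊔ U)
    have h3 := hY1' (W ⊔ U)
    linarith
  have d4 : ∀ Z : L, Aw ⊔ (T ⊔ T') ≤ (Y ⊔ Y' ⊔ Z) ⊔ (W ⊔ U) → 1 ≤ h Z (W ⊔ (Y ⊔ Y') ⊔ U) := by
    intro Z hZ
    have h1 : h (Aw ⊔ (T ⊔ T')) (W ⊔ U) ≤ h (Y ⊔ Y' ⊔ Z) (W ⊔ U) := by
      rw [← h_sup_right_of_le (A := Y ⊔ Y' ⊔ Z) (le_refl (W ⊔ U))]
      exact h_mono hZ
    have h2 := h_chain (Y ⊔ Y') Z (W ⊔ U)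
    have h3 : Y ⊔ Y' ⊔ (W ⊔ U) = W ⊔ (Y ⊔ Y') ⊔ U := by ac_rfl
    rw [h3] at h2
    linarith
  refine ⟨c4, c6, d4 X ?_, d4 X' ?_⟩
  · have s1 : T ≤ (Y ⊔ Y' ⊔ X) ⊔ (W ⊔ U) := by order
    have s2 : Aw ≤ (Y ⊔ Y' ⊔ X) ⊔ (W ⊔ U) := by order
    have s3 : T' ≤ (Y ⊔ Y' ⊔ X) ⊔ (W ⊔ U) := by order
    order
  · have s1 : T' ≤ (Y ⊔ Y' ⊔ X') ⊔ (W ⊔ U) := by order
    have s2 : Aw ≤ (Y ⊔ Y' ⊔ X') ⊔ (W ⊔ U) := by order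
    have s3 : T ≤ (Y ⊔ Y' ⊔ X') ⊔ (W ⊔ U) := by order
    order

end

end Pool.Agent.Helper72.LR
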