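import Pool.Agent.Helper72.LR.Mk

/-! LEMMA R in the exact calculus: construction of the basic block, continued. -/

set_option autoImplicit false

namespace Pool.Agent.Helper72.LR

open Finset Filter Topology Pool.Agent.Helper69.RK Pool.Agent.Helper31.EC Pool.Agent.Helper31.EC.Sp
open Pool.Agent.Helper31.EC.QS

noncomputable section

/-- membership in the ring of known functions -/
theorem kn_mul {S : Sp} {f g : QS S} {A : S.L} (hf : dg f 1 ≤ A) (hg : dg g 1 ≤ A) : dg (f * g) 1 ≤ A :=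
  (dg_mul_le _ _ le_rfl).trans (sup_le hf hg)

theorem kn_sub {S : Sp} {f g : QS S} {A : S.L} (hf : dg f 1 ≤ A) (hg : dg g 1 ≤ A) : dg (f - g) 1 ≤ A :=
  (dg_sub_le _ _ le_rfl).trans (sup_le hf hg)

theorem kn_add {S : Sp} {f g : QS S} {A : S.L} (hf : dg f 1 ≤ A) (hg : dg g 1 ≤ A) : dg (f + g) 1 ≤ A :=
  (dg_add_le _ _ le_rfl).trans (sup_le hf hg)

/-- division by a known unit -/
theorem kn_div {S : Sp} {f g : QS S} {A : S.L} (hg : IsUnit g) (hgA : dg g 1 ≤ A) (hf : dg (f * g) 1 ≤ A) :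
    dg f 1 ≤ A := by
  have h1 : f = (f * g) * Ring.inverse g := by rw [mul_assoc, Ring.mul_inverse_cancel _ hg, mul_one]
  rw [h1]
  exact kn_mul hf ((Bk.dg_inverse_le hg le_rfl).trans hgA)

theorem h_eq_of_le {L : Type*} [PM L] {X A B : L} (h1 : A ≤ B) (h2 : B ≤ A) : h X A = h X B := by
  rw [le_antisymm h1 h2]

/-- THE BASIC BLOCK -/
theorem L3.blk {W : Sp} {g d : ℝ} (hg : 0 < g) (s : L3 W g d) :
    ∃ (D : Sp) (p : Pj D W) (k : Bk D g d), (∀ b, k.u b = p.qs (s.u b)) ∧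
      (∀ b, k.A b = p.qs (s.y - s.t * s.u b)) ∧ (∀ b, k.F b = p.qs (s.F b)) := by
  obtain ⟨C⟩ := exists_CQ (S := W) ![s.w, s.y - s.t * s.w, s.Fw, s.u true, s.u false] 1
  have hvd : vd ![s.w, s.y - s.t * s.w, s.Fw, s.u true, s.u false] 1 =
      dg s.w 1 ⊔ dg (s.y - s.t * s.w) 1 ⊔ (dg (s.u true) 1 ⊔ dg (s.u false) 1) := by
    apply le_antisymm
    · rw [vd_le]
      intro i
      fin_cases i
      · exact le_sup_left.trans le_sup_left
      · exact le_sup_right.trans le_sup_left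
      · refine s.hFw.trans (sup_le (le_sup_right.trans le_sup_left) (le_sup_left.trans le_sup_left))
      · exact le_sup_left.trans le_sup_right
      · exact le_sup_right.trans le_sup_right
    · exact sup_le (sup_le
        (dg_le_vd ![s.w, s.y - s.t * s.w, s.Fw, s.u true, s.u false] 1 0)
        (dg_le_vd ![s.w, s.y - s.t * s.w, s.Fw, s.u true, s.u false] 1 1)) (sup_le
        (dg_le_vd ![s.w, s.y - s.t * s.w, s.Fw, s.u true, s.u false] 1 3)
        (dg_le_vd ![s.w, s.y - s.t * s.w, s.Fw, s.u true, s.u false] 1 4))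
  obtain ⟨p, hp⟩ : ∃ p, p = C.p 0 := ⟨_, rfl⟩
  obtain ⟨q, hq⟩ : ∃ q, q = C.p 1 := ⟨_, rfl⟩
  have cw : q.qs s.w = p.qs s.w := by rw [hp, hq]; exact C.com 1 0 0
  have ca : q.qs (s.y - s.t * s.w) = p.qs (s.y - s.t * s.w) := by rw [hp, hq]; exact C.com 1 0 1
  have cf : q.qs s.Fw = p.qs s.Fw := by rw [hp, hq]; exact C.com 1 0 2
  have cu : ∀ b, q.qs (s.u b) = p.qs (s.u b) := by
    intro b
    rw [hp, hq]
    cases b
    · exact C.com 1 0 4
    · exact C.com 1 0 3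
  -- the functions
  obtain ⟨w, hw⟩ : ∃ w, w = p.qs s.w := ⟨_, rfl⟩
  obtain ⟨u, hu⟩ : ∃ u : Bool → QS C.W, u = fun b => p.qs (s.u b) := ⟨_, rfl⟩
  obtain ⟨t, ht⟩ : ∃ t, t = p.qs s.t := ⟨_, rfl⟩
  obtain ⟨t', ht'⟩ : ∃ t', t' = q.qs s.t := ⟨_, rfl⟩
  obtain ⟨y, hy⟩ : ∃ y, y = p.qs s.y := ⟨_, rfl⟩
  obtain ⟨y', hy'⟩ : ∃ y', y' = q.qs s.y := ⟨_, rfl⟩
  obtain ⟨k0, hk0⟩ : ∃ k0, k0 = p.qs s.k0 := ⟨_, rfl⟩
  obtain ⟨k0', hk0'⟩ : ∃ k0', k0' = q.qs s.k0 := ⟨_, rfl⟩
  obtain ⟨k1, hk1⟩ : ∃ k1, k1 = p.qs s.k1 := ⟨_, rfl⟩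
  obtain ⟨k1', hk1'⟩ : ∃ k1', k1' = q.qs s.k1 := ⟨_, rfl⟩
  have ub : ∀ b, p.qs (s.u b) = u b := fun b => by rw [hu]
  have ub' : ∀ b, q.qs (s.u b) = u b := fun b => by rw [cu, ub]
  have e1 : y' - t' * w = y - t * w := by
    rw [map_sub, map_sub, map_mul, map_mul, cw, ← hw, ← ht, ← ht', ← hy, ← hy'] at ca
    exact ca
  have e2 : k0' + w * k1' - (k0 + w * k1) ∈ Id C.W d := by
    have h1 := Pool.Agent.Helper82.TP.Pj_mem_Id p s.eFw
    have h2 := Pool.Agent.Helper82.TP.Pj_mem_Id q s.eFw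
    rw [map_sub, map_add, map_mul, ← hw, ← hk0, ← hk1] at h1
    rw [map_sub, map_add, map_mul, cw, cf, ← hw, ← hk0', ← hk1'] at h2
    have h3 : k0' + w * k1' - (k0 + w * k1) =
        (p.qs s.Fw - (k0 + w * k1)) - (p.qs s.Fw - (k0' + w * k1')) := by ring
    rw [h3]
    exact (Id C.W d).sub_mem h1 h2
  obtain ⟨A, hA⟩ : ∃ A : Bool → QS C.W, A = fun b => y - t * u b := ⟨_, rfl⟩
  obtain ⟨A', hA'⟩ : ∃ A' : Bool → QS C.W, A' = fun b => y' - t' * u b := ⟨_, rfl⟩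
  obtain ⟨F, hF⟩ : ∃ F : Bool → QS C.W, F = fun b => p.qs (s.F b) := ⟨_, rfl⟩
  obtain ⟨F', hF'⟩ : ∃ F' : Bool → QS C.W, F' = fun b => q.qs (s.F b) := ⟨_, rfl⟩
  have Ab : ∀ b, A b = y - t * u b := fun b => by rw [hA]
  have Ab' : ∀ b, A' b = y' - t' * u b := fun b => by rw [hA']
  have Fb : ∀ b, F b - (k0 + u b * k1) ∈ Id C.W d := fun b => by
    have h1 := Pool.Agent.Helper82.TP.Pj_mem_Id p (s.eF b)
    rw [map_sub, map_add, map_mul, ub, ← hk0, ← hk1] at h1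
    rw [hF]; exact h1
  have Fb' : ∀ b, F' b - (k0' + u b * k1') ∈ Id C.W d := fun b => by
    have h1 := Pool.Agent.Helper82.TP.Pj_mem_Id q (s.eF b)
    rw [map_sub, map_add, map_mul, ub', ← hk0', ← hk1'] at h1
    rw [hF']; exact h1
  have pA : ∀ b, p.qs (s.y - s.t * s.u b) = A b := fun b => by
    rw [Ab, map_sub, map_mul, ub, ← hy, ← ht]
  have qA : ∀ b, q.qs (s.y - s.t * s.u b) = A' b := fun b => by
    rw [Ab', map_sub, map_mul, ub', ← hy', ← ht']
  have pF : ∀ b, p.qs (s.F b) = F b := fun b => by rw [hF]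
  have qF : ∀ b, q.qs (s.F b) = F' b := fun b => by rw [hF']
  obtain ⟨aw, haw⟩ : ∃ aw, aw = y - t * w := ⟨_, rfl⟩
  have paw : p.qs (s.y - s.t * s.w) = aw := by
    rw [haw, map_sub, map_mul, ← hw, ← hy, ← ht]
  have f1 : ∀ b, A b = aw + t * (w - u b) := fun b => by rw [Ab, haw]; ring
  have f2 : ∀ b, A' b = aw + t' * (w - u b) := fun b => by rw [Ab', haw]; linear_combination e1
  have fF : ∀ b, dg (F b) 1 ≤ dg (A b) 1 ⊔ dg (u b) 1 := by
    intro b
    rw [← pF, ← pA, ← ub, p.qs_dg, p.qs_dg, p.qs_dg, ← p.map_sup]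
    exact p.map_mono (s.hF b)
  have fF' : ∀ b, dg (F' b) 1 ≤ dg (A' b) 1 ⊔ dg (u b) 1 := by
    intro b
    rw [← qF, ← qA, ← ub', q.qs_dg, q.qs_dg, q.qs_dg, ← q.map_sup]
    exact q.map_mono (s.hF b)
  have rw1 : Rch w ⊥ g := by
    have := s.rw.pull p
    rwa [p.map_bot, ← hw] at this
  have ru1 : ∀ b, Rch (u b) ⊥ g := fun b => by
    have := (s.ru b).pull p
    rwa [p.map_bot, ub] at this
  have uU : ∀ b, dg (u b) 1 ≤ dg (u true) 1 ⊔ dg (u false) 1 := by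
    intro b
    cases b
    · exact le_sup_right
    · exact le_sup_left
  have uU2 : ∀ b, dg (u b) 1 ⊔ dg (u (!b)) 1 = dg (u true) 1 ⊔ dg (u false) 1 := by
    intro b
    cases b
    · exact sup_comm _ _
    · rfl
  -- independence
  have iL : I (dg w 1 ⊔ dg aw 1) (dg (u true) 1 ⊔ dg (u false) 1) ⊥ = 0 := by
    rw [hw, ← paw, ← ub, ← ub, p.qs_dg, p.qs_dg, p.qs_dg, p.qs_dg, ← p.map_sup, ← p.map_sup, ← p.map_bot, p.I_map]
    exact s.iL
  have iu : ∀ b, I (dg (u b) 1) (dg (u (!b)) 1) ⊥ = 0 := by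
    have h1 : I (dg (u true) 1) (dg (u false) 1) ⊥ = 0 := by
      rw [← ub, ← ub, p.qs_dg, p.qs_dg, ← p.map_bot, p.I_map]
      exact s.iu
    intro b
    cases b
    · rw [I_comm]; exact h1
    · exact h1
  have wu : ∀ b, IsUnit (w - u b) := by
    intro b
    have h1 : I (dg w 1) (dg (u b) 1) ⊥ = 0 :=
      I_zero_mono iL (le_sup_left.trans le_sup_left) ((uU b).trans le_sup_left)
    exact (rw1.indep h1).isUnit_sub hg le_sup_left
  have uu : ∀ b, IsUnit (u b - u (!b)) := fun b => ((ru1 b).indep (iu b)).isUnit_sub hg le_sup_left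
  -- times
  have rT : Rl (fun i : Fin 2 => (C.p i).qs s.t) C.v := C.rl_one s.t (by rw [hvd]; exact s.it)
  have hv : C.v = dg w 1 ⊔ dg aw 1 ⊔ (dg (u true) 1 ⊔ dg (u false) 1) := by
    unfold CQ.v
    rw [hvd, ← hp, p.map_sup, p.map_sup, p.map_sup, ← p.qs_dg, ← p.qs_dg, ← p.qs_dg, ← p.qs_dg, ← hw, paw, ub, ub]
  have hTT : h (dg t 1 ⊔ dg t' 1) (dg w 1 ⊔ dg aw 1 ⊔ (dg (u true) 1 ⊔ dg (u false) 1)) = 2 := by
    have h1 : h (vd (fun i : Fin 2 => (C.p i).qs s.t) 1) C.v = 2 := by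
      have : h (vd (fun i : Fin 2 => (C.p i).qs s.t) 1) C.v = Fintype.card (Fin 2) := rT
      rw [this]; simp
    have h2 : vd (fun i : Fin 2 => (C.p i).qs s.t) 1 = dg t 1 ⊔ dg t' 1 := by
      apply le_antisymm
      · rw [vd_le]
        intro i
        fin_cases i
        · show dg ((C.p 0).qs s.t) 1 ≤ _
          rw [← hp, ← ht]; exact le_sup_left
        · show dg ((C.p 1).qs s.t) 1 ≤ _
          rw [← hq, ← ht']; exact le_sup_right
      · apply sup_le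
        · rw [ht, hp]; exact dg_le_vd (fun i : Fin 2 => (C.p i).qs s.t) 1 0
        · rw [ht', hq]; exact dg_le_vd (fun i : Fin 2 => (C.p i).qs s.t) 1 1
    rw [← hv, ← h2]
    exact h1
  have tt : IsUnit (t' - t) := by
    have h1 := rT.isUnit_sub (i := 1) (j := 0) (by decide)
    beta_reduce at h1
    rwa [← hp, ← hq, ← ht, ← ht'] at h1
  have hA1 : h (dg aw 1) (dg w 1) ≤ 1 := h_dg_le_one _ _
  have hXA : ∀ b, h (dg (A b) 1) (dg (u true) 1 ⊔ dg (u false) 1) ≤ h (dg aw 1) (dg w 1) := by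
    intro b
    have h1 : h (dg (A b) 1) (dg (u b) 1) = h (dg aw 1) (dg w 1) := by
      rw [← pA, ← ub, ← paw, hw, p.qs_dg, p.qs_dg, p.qs_dg, p.qs_dg, p.h_map, p.h_map]
      exact s.eA b
    rw [← h1]
    exact h_anti (uU b)
  have hXA' : ∀ b, h (dg (A' b) 1) (dg (u true) 1 ⊔ dg (u false) 1) ≤ h (dg aw 1) (dg w 1) := by
    intro b
    have h1 : h (dg (A' b) 1) (dg (u b) 1) = h (dg aw 1) (dg w 1) := by
      rw [← qA, ← ub', ← paw, hw, q.qs_dg, q.qs_dg, p.qs_dg, p.qs_dg, p.h_map, q.h_map]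
      exact s.eA b
    rw [← h1]
    exact h_anti (uU b)
  have key : ∀ b, _ := fun b => count (X := dg (A b) 1) (X' := dg (A' b) 1) (Y := dg (A (!b)) 1)
    (Y' := dg (A' (!b)) 1) hTT iL (fun C => h_dg_le_one t C) (fun C => h_dg_le_one _ C) (fun C => h_dg_le_one _ C)
    hA1 (hXA b) (hXA' b) (by
      have h1 : aw = A b - t * (w - u b) := by rw [f1]; ring
      rw [h1]
      have s1 := uU b
      exact kn_sub (by order) (kn_mul (by order) (kn_sub (by order) (by order)))) (by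
      have h1 : t' * (w - u b) = A' b - aw := by rw [f2]; ring
      have s1 := uU b
      apply kn_div (wu b) (kn_sub (by order) (by order))
      rw [h1]
      exact kn_sub (by order) (by order)) (by
      have h1 : t * (u b - u (!b)) = A (!b) - A b := by rw [f1, f1]; ring
      have s1 := uU b
      have s2 := uU (!b)
      apply kn_div (uu b) (kn_sub (by order) (by order))
      rw [h1]
      exact kn_sub (by order) (by order)) (by
      have h1 : t' * (w - u (!b)) = A' (!b) - aw := by rw [f2]; ring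
      have s1 := uU (!b)
      apply kn_div (wu (!b)) (kn_sub (by order) (by order))
      rw [h1]
      exact kn_sub (by order) (by order)) (by
      have h1 : t' * (u b - u (!b)) = A' (!b) - A' b := by rw [f2, f2]; ring
      have s1 := uU b
      have s2 := uU (!b)
      apply kn_div (uu b) (kn_sub (by order) (by order))
      rw [h1]
      exact kn_sub (by order) (by order)) (by
      have h1 : aw = A' b - t' * (w - u b) := by rw [f2]; ring
      rw [h1]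
      have s1 := uU b
      exact kn_sub (by order) (kn_mul (by order) (kn_sub (by order) (by order)))) (by
      have h1 : t * (w - u (!b)) = A (!b) - aw := by rw [f1]; ring
      have s1 := uU (!b)
      apply kn_div (wu (!b)) (kn_sub (by order) (by order))
      rw [h1]
      exact kn_sub (by order) (by order))
  have PU : ∀ b, dg (A b) 1 ⊔ dg (A' b) 1 ⊔ (dg (F b) 1 ⊔ dg (F' b) 1) ⊔ (dg (u b) 1 ⊔ dg (u (!b)) 1) =
      dg (A b) 1 ⊔ dg (A' b) 1 ⊔ (dg (u true) 1 ⊔ dg (u false) 1) := by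
    intro b
    rw [uU2]
    have s1 := fF b
    have s2 := fF' b
    have s3 := uU b
    apply le_antisymm
    · refine sup_le (sup_le le_sup_left (sup_le ?_ ?_)) le_sup_right
      · exact s1.trans (sup_le (le_sup_left.trans le_sup_left) (s3.trans le_sup_right))
      · exact s2.trans (sup_le (le_sup_right.trans le_sup_left) (s3.trans le_sup_right))
    · exact sup_le (le_sup_left.trans le_sup_left) le_sup_right
  have PU2 : ∀ b, dg w 1 ⊔ (dg (A (!b)) 1 ⊔ dg (A' (!b)) 1 ⊔ (dg (F (!b)) 1 ⊔ dg (F' (!b)) 1)) ⊔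
      (dg (u b) 1 ⊔ dg (u (!b)) 1) = dg w 1 ⊔ (dg (A (!b)) 1 ⊔ dg (A' (!b)) 1) ⊔ (dg (u true) 1 ⊔ dg (u false) 1) := by
    intro b
    have h1 := PU (!b)
    rw [uU2] at h1
    rw [uU2, sup_assoc (dg w 1), h1, sup_assoc (dg w 1)]
  refine ⟨C.W, p, ⟨w, u, A, A', F, F', rw1, wu, uu, fF, fF', ?_, iu, ?_, ?_, ?_, ?_, ?_, ?_⟩, ?_, ?_, ?_⟩
  · intro b
    have h1 : A' b - A b = (t' - t) * (w - u b) := by rw [f1, f2]; ring
    rw [h1]
    exact tt.mul (wu b)
  · intro b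
    rw [PU]
    exact (key b).1
  · intro b
    rw [PU2]
    exact le_antisymm (h_dg_le_one _ _) (key b).2.2.1
  · intro b
    rw [PU2]
    exact le_antisymm (h_dg_le_one _ _) (key b).2.2.2
  · intro b
    rw [uU2]
    exact (key b).2.1
  · intro b
    rw [f1, f2, f1, f2]; ring
  · intro b
    have h1 : (w - u (!b)) * (F' b - F b) - (w - u b) * (F' (!b) - F (!b)) =
        (u b - u (!b)) * (k0' + w * k1' - (k0 + w * k1)) +
        (w - u (!b)) * ((F' b - (k0' + u b * k1')) - (F b - (k0 + u b * k1))) -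
        (w - u b) * ((F' (!b) - (k0' + u (!b) * k1')) - (F (!b) - (k0 + u (!b) * k1))) := by ring
    rw [h1]
    exact (Id C.W d).sub_mem ((Id C.W d).add_mem ((Id C.W d).mul_mem_left _ e2)
      ((Id C.W d).mul_mem_left _ ((Id C.W d).sub_mem (Fb' b) (Fb b))))
      ((Id C.W d).mul_mem_left _ ((Id C.W d).sub_mem (Fb' (!b)) (Fb (!b))))
  · exact fun b => (ub b).symm
  · exact fun b => (pA b).symm
  · exact fun b => (pF b).symm

end

end Pool.Agent.Helper72.LR
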