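import Pool.Agent.Helper19.TP.Ric

/-! LEMMA R in the exact calculus: rich variables. -/

set_option autoImplicit false

namespace Pool.Agent.Helper72.LR

open Finset Filter Topology Pool.Agent.Helper69.RK Pool.Agent.Helper31.EC Pool.Agent.Helper31.EC.Sp
open Pool.Agent.Helper31.EC.QS

noncomputable section

variable {S : Sp}

/-- `u` is robustly rich over `A`: `h_E(u_r|A) ≥ g r` in every extension, on every event of positive probability -/
def Rch (u : QS S) (A : S.L) (g : ℝ) : Prop :=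
  ∀ (T : Sp) (p : Pj T S) (E : ∀ k, (T.F k).Ω → Prop) (hE : 0 < ul (T.pr E)) (r : ℝ), 0 ≤ r → r ≤ 1 →
    g * r ≤ h (restL E hE (p.map (dg u r))) (restL E hE (p.map A))

theorem Rch.anti {u : QS S} {A B : S.L} {g : ℝ} (hu : Rch u B g) (hAB : A ≤ B) : Rch u A g :=
  fun T p E hE r h0 h1 => (hu T p E hE r h0 h1).trans (h_anti (restL_mono E hE (p.map_mono hAB)))

theorem Rch.mono_g {u : QS S} {A : S.L} {g g' : ℝ} (hu : Rch u A g) (hg : g' ≤ g) : Rch u A g' :=
  fun T p E hE r h0 h1 => (mul_le_mul_of_nonneg_right hg h0).trans (hu T p E hE r h0 h1)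

theorem Rch.pull {T : Sp} (p : Pj T S) {u : QS S} {A : S.L} {g : ℝ} (hu : Rch u A g) :
    Rch (p.qs u) (p.map A) g := by
  intro R q E hE r h0 h1
  have h4 := hu R (q.comp p) E hE r h0 h1
  rw [Pj.comp_map, Pj.comp_map] at h4
  rw [p.qs_dg]
  exact h4

/-- richness over independent informations -/
theorem Rch.indep {u : QS S} {A B : S.L} {g : ℝ} (hu : Rch u A g) (hI : I (dg u 1) B A = 0) :
    Rch u (B ⊔ A) g := by
  intro T p E hE r h0 h1
  have h2 : I (dg u r) B A = 0 := I_zero_mono hI ((dg_mono u h1).trans le_sup_left) le_sup_left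
  have h3 : I (p.map (dg u r)) (p.map B) (p.map A) = 0 := by rw [p.I_map]; exact h2
  have h4 := I_rest_zero E hE h3
  rw [I_zero_iff_h, ← restL_sup, ← p.map_sup] at h4
  rw [h4]
  exact hu T p E hE r h0 h1

/-- richness passes to variables that determine the rich variable -/
theorem Rch.trans {u w : QS S} {A : S.L} {g : ℝ} (hu : Rch u A g) (hw : ∀ r, r ≤ 1 → dg u r ≤ dg w r ⊔ A) :
    Rch w A g := by
  intro T p E hE r h0 h1
  have h2 : restL E hE (p.map (dg u r)) ≤ restL E hE (p.map (dg w r)) ⊔ restL E hE (p.map A) := by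
    rw [← restL_sup, ← p.map_sup]
    exact restL_mono E hE (p.map_mono (hw r h1))
  refine (hu T p E hE r h0 h1).trans ((h_mono h2).trans ?_)
  rw [h_sup_right_of_le le_rfl]

theorem Rch.pos {u : QS S} {A : S.L} {g : ℝ} (hu : Rch u A g) (hg : 0 < g)
    (T : Sp) (p : Pj T S) (E : ∀ k, (T.F k).Ω → Prop) (hE : 0 < ul (T.pr E)) (r : ℝ) (h0 : 0 < r) (h1 : r ≤ 1) :
    0 < h (restL E hE (p.map (dg u r))) (restL E hE (p.map A)) :=
  (mul_pos hg h0).trans_le (hu T p E hE r h0.le h1)

/-- a rich variable minus a known function is a unit -/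
theorem Rch.isUnit_sub {u c : QS S} {A : S.L} {g : ℝ} (hu : Rch u A g) (hg : 0 < g) (hc : dg c 1 ≤ A) :
    IsUnit (u - c) := by
  apply Pool.Agent.Helper19.TP.isUnit_sub_of_ind (A := A) (I_zero_of_le_right hc)
  intro E hE r h0 h1
  have h2 := hu.pos hg S (Pj.id S) E hE r h0 h1
  rwa [Pj.id_map, Pj.id_map] at h2

end

end Pool.Agent.Helper72.LR
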