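import Pool.Agent.Helper72.LR.Mk2

/-! LEMMA R in the exact calculus. A label free slope `F = k0 + u k1` of lines of direction `u` in the plane `(t, y)`,
`k0`, `k1` functions of the point, `F` a function of the line, directions of positive rate: `F = θ a + α u + β` with
`θ`, `α`, `β` of zero entropy. -/

set_option autoImplicit false

namespace Pool.Agent.Helper72.LR

open Finset Filter Topology Pool.Agent.Helper69.RK Pool.Agent.Helper31.EC Pool.Agent.Helper31.EC.Sp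
open Pool.Agent.Helper31.EC.QS

noncomputable section

/-- a label free slope over the plane `(t, y)`, known at depth `d` -/
structure LSd (S : Sp) (g d : ℝ) where
  t : QS S
  y : QS S
  u : QS S
  k0 : QS S
  k1 : QS S
  /-- the time is real given the line -/
  ht : h (dg t 1) (dg u 1 ⊔ dg (y - t * u) 1) = 1
  /-- the direction is independent of the point -/
  iu : I (dg u 1) (dg t 1 ⊔ dg y 1) ⊥ = 0
  hk0 : dg k0 d ≤ dg t 1 ⊔ dg y 1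
  hk1 : dg k1 d ≤ dg t 1 ⊔ dg y 1
  hF : dg (k0 + u * k1) d ≤ dg (y - t * u) 1 ⊔ dg u 1
  rch : Rch u ⊥ g

/-- the same with truncated functions -/
structure LT (S : Sp) (g d : ℝ) where
  t : QS S
  y : QS S
  u : QS S
  k0 : QS S
  k1 : QS S
  F : QS S
  ht : h (dg t 1) (dg u 1 ⊔ dg (y - t * u) 1) = 1
  iu : I (dg u 1) (dg t 1 ⊔ dg y 1) ⊥ = 0
  hk0 : dg k0 1 ≤ dg t 1 ⊔ dg y 1
  hk1 : dg k1 1 ≤ dg t 1 ⊔ dg y 1
  hF : dg F 1 ≤ dg (y - t * u) 1 ⊔ dg u 1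
  eF : F - (k0 + u * k1) ∈ Id S d
  rch : Rch u ⊥ g

theorem LT.l3 {S : Sp} {g d : ℝ} (s : LT S g d) :
    ∃ (W : Sp) (p : Pj W S) (l : L3 W g d), l.t = p.qs s.t ∧ l.y = p.qs s.y ∧ l.k0 = p.qs s.k0 ∧ l.k1 = p.qs s.k1 ∧
      I (dg l.t 1 ⊔ dg l.y 1) (dg (l.u true) 1 ⊔ dg (l.u false) 1) ⊥ = 0 := by
  obtain ⟨C⟩ := exists_CQ (S := S) ![s.t, s.y, s.k0, s.k1] 2
  have hvd : vd ![s.t, s.y, s.k0, s.k1] 1 = dg s.t 1 ⊔ dg s.y 1 := by
    apply le_antisymm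
    · rw [vd_le]
      intro i
      fin_cases i
      · exact le_sup_left
      · exact le_sup_right
      · exact s.hk0
      · exact s.hk1
    · exact sup_le (dg_le_vd ![s.t, s.y, s.k0, s.k1] 1 0) (dg_le_vd ![s.t, s.y, s.k0, s.k1] 1 1)
  have ct : ∀ i, (C.p i).qs s.t = (C.p 0).qs s.t := fun i => C.com i 0 0
  have cy : ∀ i, (C.p i).qs s.y = (C.p 0).qs s.y := fun i => C.com i 0 1
  have ck0 : ∀ i, (C.p i).qs s.k0 = (C.p 0).qs s.k0 := fun i => C.com i 0 2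
  have ck1 : ∀ i, (C.p i).qs s.k1 = (C.p 0).qs s.k1 := fun i => C.com i 0 3
  obtain ⟨t, ht⟩ : ∃ t, t = (C.p 0).qs s.t := ⟨_, rfl⟩
  obtain ⟨y, hy⟩ : ∃ y, y = (C.p 0).qs s.y := ⟨_, rfl⟩
  obtain ⟨k0, hk0⟩ : ∃ k0, k0 = (C.p 0).qs s.k0 := ⟨_, rfl⟩
  obtain ⟨k1, hk1⟩ : ∃ k1, k1 = (C.p 0).qs s.k1 := ⟨_, rfl⟩
  obtain ⟨v, hv⟩ : ∃ v : Fin 3 → QS C.W, v = fun i => (C.p i).qs s.u := ⟨_, rfl⟩
  have vi : ∀ i, (C.p i).qs s.u = v i := fun i => by rw [hv]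
  have hCv : C.v = dg t 1 ⊔ dg y 1 := by
    unfold CQ.v
    rw [hvd, Pj.map_sup, ← Pj.qs_dg, ← Pj.qs_dg, ← ht, ← hy]
  -- directions are independent
  have hsum : ∀ F : Finset (Fin 3), h (F.sup fun i => dg (v i) 1) C.v = F.card * H (dg s.u 1) := by
    intro F
    have h1 := C.h_sup F (fun _ => dg s.u 1)
    have h2 : h (dg s.u 1) (vd ![s.t, s.y, s.k0, s.k1] 1) = H (dg s.u 1) := by
      have := I_zero_iff_h.mp s.iu
      rw [sup_bot_eq, h_bot] at this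
      rw [hvd]; exact this
    rw [h2, Finset.sum_const, nsmul_eq_mul] at h1
    rw [← h1]
    congr 1
    apply Finset.sup_congr rfl
    intro i _
    rw [← vi, Pj.qs_dg]
  have hone : ∀ i, H (dg (v i) 1) = H (dg s.u 1) := fun i => by rw [← vi, Pj.qs_dg, Pj.H_map]
  have s12 : ∀ i j : Fin 3, i ≠ j → h (dg (v i) 1 ⊔ dg (v j) 1) C.v = 2 * H (dg s.u 1) := by
    intro i j hij
    have h1 := hsum {i, j}
    rw [Finset.card_pair hij, Finset.sup_insert, Finset.sup_singleton] at h1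
    rw [h1]; norm_num
  have s123 : h (dg (v 0) 1 ⊔ (dg (v 1) 1 ⊔ dg (v 2) 1)) C.v = 3 * H (dg s.u 1) := by
    have h1 := hsum {0, 1, 2}
    rw [Finset.sup_insert, Finset.sup_insert, Finset.sup_singleton] at h1
    rw [h1]
    have : ({0, 1, 2} : Finset (Fin 3)).card = 3 := by decide
    rw [this]; norm_num
  -- all directions are independent of the point and of each other
  have iq : I (C.v ⊔ dg (v 0) 1) (dg (v 1) 1 ⊔ dg (v 2) 1) ⊥ = 0 := by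
    have a1 := I_chain C.v (dg (v 0) 1) (dg (v 1) 1 ⊔ dg (v 2) 1) ⊥
    have a2 : I C.v (dg (v 1) 1 ⊔ dg (v 2) 1) ⊥ ≤ 0 := by
      rw [I_eq', h_bot, sup_bot_eq, s12 1 2 (by decide)]
      have := H_sup_le (dg (v 1) 1) (dg (v 2) 1)
      rw [hone, hone] at this
      linarith
    have a3 : I (dg (v 0) 1) (dg (v 1) 1 ⊔ dg (v 2) 1) (C.v ⊔ ⊥) = 0 := by
      rw [sup_bot_eq, I_eq']
      have b1 := h_chain (dg (v 0) 1) (dg (v 1) 1 ⊔ dg (v 2) 1) C.v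
      rw [s123] at b1
      have b2 : h (dg (v 0) 1) C.v = H (dg s.u 1) := by
        have := hsum {0}
        rw [Finset.sup_singleton, Finset.card_singleton] at this
        rw [this]; norm_num
      rw [s12 1 2 (by decide)]
      linarith
    have a4 := I_nonneg (C.v ⊔ dg (v 0) 1) (dg (v 1) 1 ⊔ dg (v 2) 1) ⊥
    linarith
  have iv : I (dg (v 1) 1) (dg (v 2) 1) ⊥ = 0 := by
    apply le_antisymm _ (I_nonneg _ _ _)
    have a1 := s12 1 2 (by decide)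
    have a2 := h_le_H (dg (v 1) 1 ⊔ dg (v 2) 1) C.v
    have a3 := H_chain (dg (v 1) 1) (dg (v 2) 1)
    rw [I_eq', h_bot, sup_bot_eq]
    rw [hone] at a3 ⊢
    linarith
  have pa : ∀ i, (C.p i).qs (s.y - s.t * s.u) = y - t * v i := fun i => by
    rw [map_sub, map_mul, ct, cy, vi, ht, hy]
  have eFi : ∀ i, (C.p i).qs s.F - (k0 + v i * k1) ∈ Id C.W d := fun i => by
    have h1 := Pool.Agent.Helper82.TP.Pj_mem_Id (C.p i) s.eF
    rw [map_sub, map_add, map_mul, ck0, ck1, vi, ← hk0, ← hk1] at h1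
    exact h1
  have hFi : ∀ i, dg ((C.p i).qs s.F) 1 ≤ dg (y - t * v i) 1 ⊔ dg (v i) 1 := by
    intro i
    rw [← pa, ← vi, Pj.qs_dg, Pj.qs_dg, Pj.qs_dg, ← Pj.map_sup]
    exact Pj.map_mono _ s.hF
  have heA : ∀ i, h (dg (y - t * v i) 1) (dg (v i) 1) = h (dg (s.y - s.t * s.u) 1) (dg s.u 1) := by
    intro i
    rw [← pa, ← vi, Pj.qs_dg, Pj.qs_dg, Pj.h_map]
  have hri : ∀ i, Rch (v i) ⊥ g := by
    intro i
    have := s.rch.pull (C.p i)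
    rwa [Pj.map_bot, vi] at this
  have awle : dg (y - t * v 0) 1 ≤ C.v ⊔ dg (v 0) 1 := by
    rw [hCv]
    exact kn_sub (le_sup_right.trans le_sup_left) (kn_mul (le_sup_left.trans le_sup_left) le_sup_right)
  have ht1 : h (dg t 1) (dg (v 0) 1 ⊔ dg (y - t * v 0) 1) = 1 := by
    rw [← pa, ← vi, ht, Pj.qs_dg, Pj.qs_dg, Pj.qs_dg, ← Pj.map_sup, Pj.h_map]
    exact s.ht
  have tle : dg t 1 ≤ C.v := by rw [hCv]; exact le_sup_left
  refine ⟨C.W, C.p 0, ⟨t, y, k0, k1, v 0, fun b => cond b (v 1) (v 2), (C.p 0).qs s.F,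
    fun b => cond b ((C.p 1).qs s.F) ((C.p 2).qs s.F), ?_, eFi 0, ?_, ?_, ?_, ?_, ?_, ?_, ?_, ?_⟩,
    ht, hy, hk0, hk1, ?_⟩
  · intro b
    cases b
    · exact eFi 2
    · exact eFi 1
  · show h (dg t 1) (dg (v 0) 1 ⊔ dg (y - t * v 0) 1 ⊔ (dg (v 1) 1 ⊔ dg (v 2) 1)) = 1
    have a1 : I ((dg (v 0) 1 ⊔ dg (y - t * v 0) 1) ⊔ dg t 1) (dg (v 1) 1 ⊔ dg (v 2) 1) ⊥ = 0 := by
      refine I_zero_mono iq ?_ le_sup_left
      exact (sup_le (sup_le le_sup_right awle) (tle.trans le_sup_left)).trans le_sup_left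
    rw [I_chain] at a1
    have n1 := I_nonneg (dg (v 0) 1 ⊔ dg (y - t * v 0) 1) (dg (v 1) 1 ⊔ dg (v 2) 1) ⊥
    have n2 := I_nonneg (dg t 1) (dg (v 1) 1 ⊔ dg (v 2) 1) (dg (v 0) 1 ⊔ dg (y - t * v 0) 1 ⊔ ⊥)
    have a2 : I (dg t 1) (dg (v 1) 1 ⊔ dg (v 2) 1) (dg (v 0) 1 ⊔ dg (y - t * v 0) 1 ⊔ ⊥) = 0 := by linarith
    rw [sup_bot_eq, I_zero_iff_h, sup_comm (dg (v 1) 1 ⊔ dg (v 2) 1)] at a2
    rw [a2]
    exact ht1
  · show I (dg (v 0) 1 ⊔ dg (y - t * v 0) 1) (dg (v 1) 1 ⊔ dg (v 2) 1) ⊥ = 0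
    refine I_zero_mono iq ?_ le_sup_left
    exact (sup_le le_sup_right awle).trans le_sup_left
  · intro b
    cases b
    · exact hFi 2
    · exact hFi 1
  · exact hFi 0
  · intro b
    cases b
    · exact (heA 2).trans (heA 0).symm
    · exact (heA 1).trans (heA 0).symm
  · exact iv
  · exact hri 0
  · intro b
    cases b
    · exact hri 2
    · exact hri 1
  · show I (dg t 1 ⊔ dg y 1) (dg (v 1) 1 ⊔ dg (v 2) 1) ⊥ = 0
    rw [← hCv]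
    exact I_zero_mono iq (le_sup_left.trans le_sup_left) le_sup_left

/-- **LEMMA R** (from RING NOISE), truncated functions -/
theorem LT.lemmaR (hR : Pool.Agent.Helper69.RN.RNEC) {S : Sp} {g d : ℝ} (hg : 0 < g) (hd0 : 0 < d) (hd1 : d ≤ 1)
    (s : LT S g d) :
    ∃ (T : Sp) (p : Pj T S) (θ α β : QS T), dg θ 1 = ⊥ ∧ dg α 1 = ⊥ ∧ dg β 1 = ⊥ ∧
      p.qs s.k0 - (β + θ * p.qs s.y) ∈ Id T d ∧ p.qs s.k1 - (α - θ * p.qs s.t) ∈ Id T d := by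
  obtain ⟨W, p0, l, lt, ly, lk0, lk1, lI⟩ := s.l3
  obtain ⟨D, p1, k, ku, kA, kF⟩ := l.blk hg
  obtain ⟨θ, hθ1, hθ2⟩ := exists_trunc (k.th true) hd0.le hd1
  have hθb : dg θ 1 = ⊥ := le_antisymm (hθ2.trans (k.th_bot hR hg hd0 hd1 true).le) bot_le
  have hmb : ∀ b, dg (k.m true b) d ≤ dg (k.u b) 1 := fun b =>
    (k.th_le_u hd0 hd1 true b (th_le_U hR hg hd0 hd1 k true)).2
  obtain ⟨t, ht⟩ : ∃ t, t = p1.qs l.t := ⟨_, rfl⟩
  obtain ⟨y, hy⟩ : ∃ y, y = p1.qs l.y := ⟨_, rfl⟩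
  obtain ⟨k0, hk0⟩ : ∃ k0, k0 = p1.qs l.k0 := ⟨_, rfl⟩
  obtain ⟨k1, hk1⟩ : ∃ k1, k1 = p1.qs l.k1 := ⟨_, rfl⟩
  obtain ⟨β0, hβ⟩ : ∃ β0, β0 = k0 - θ * y := ⟨_, rfl⟩
  obtain ⟨α0, hα⟩ : ∃ α0, α0 = k1 + θ * t := ⟨_, rfl⟩
  have em : ∀ b, k.m true b - (β0 + k.u b * α0) ∈ Id D d := by
    intro b
    have h1 := Pool.Agent.Helper82.TP.Pj_mem_Id p1 (l.eF b)
    rw [map_sub, map_add, map_mul, ← ku, ← kF, ← hk0, ← hk1] at h1
    have h2 : k.A b = y - t * k.u b := by rw [kA, map_sub, map_mul, ← ku, ← ht, ← hy]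
    have h3 : k.m true b - (β0 + k.u b * α0) =
        (k.F b - (k0 + k.u b * k1)) + (θ - k.th true) * (y - t * k.u b) := by
      unfold Bk.m
      rw [h2, hβ, hα]
      ring
    rw [h3]
    exact (Id D d).add_mem h1 ((Id D d).mul_mem_right _ hθ1)
  obtain ⟨U, hU⟩ : ∃ U : D.L, U = dg (k.u true) 1 ⊔ dg (k.u false) 1 := ⟨_, rfl⟩
  have ut : dg (k.u true) 1 ≤ U := by rw [hU]; exact le_sup_left
  have uf : dg (k.u false) 1 ≤ U := by rw [hU]; exact le_sup_right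
  have hαU : dg α0 d ≤ U := by
    have hu : IsUnit (k.u true - k.u false) := k.uu true
    obtain ⟨r, hr⟩ : ∃ r, r = Ring.inverse (k.u true - k.u false) := ⟨_, rfl⟩
    have hru : (k.u true - k.u false) * r = 1 := by rw [hr]; exact Ring.mul_inverse_cancel _ hu
    have hrU : dg r 1 ≤ U := by
      rw [hr]
      exact (Bk.dg_inverse_le hu le_rfl).trans (kn_sub ut uf)
    have h1 : α0 - (k.m true true - k.m true false) * r ∈ Id D d := by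
      have h2 : α0 - (k.m true true - k.m true false) * r =
          -(((k.m true true - (β0 + k.u true * α0)) - (k.m true false - (β0 + k.u false * α0))) * r) := by
        linear_combination (-α0) * hru
      rw [h2]
      exact (Id D d).neg_mem ((Id D d).mul_mem_right _ ((Id D d).sub_mem (em true) (em false)))
    rw [dg_eq_of_sub_mem h1 le_rfl hd1]
    refine (dg_mul_le _ _ hd1).trans (sup_le ((dg_sub_le _ _ hd1).trans (sup_le ?_ ?_)) ?_)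
    · exact (hmb true).trans ut
    · exact (hmb false).trans uf
    · exact (dg_mono _ hd1).trans hrU
  have hβU : dg β0 d ≤ U := by
    have h1 : β0 - (k.m true true - k.u true * α0) ∈ Id D d := by
      have h2 : β0 - (k.m true true - k.u true * α0) = -(k.m true true - (β0 + k.u true * α0)) := by ring
      rw [h2]
      exact (Id D d).neg_mem (em true)
    rw [dg_eq_of_sub_mem h1 le_rfl hd1]
    refine (dg_sub_le _ _ hd1).trans (sup_le ((hmb true).trans ut) ((dg_mul_le _ _ hd1).trans (sup_le ?_ hαU)))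
    exact (dg_mono _ hd1).trans ut
  -- known to the point
  obtain ⟨Q, hQ⟩ : ∃ Q : D.L, Q = dg t 1 ⊔ dg y 1 := ⟨_, rfl⟩
  have tQ : dg t 1 ≤ Q := by rw [hQ]; exact le_sup_left
  have yQ : dg y 1 ≤ Q := by rw [hQ]; exact le_sup_right
  have hQ2 : Q = p1.map (p0.map (dg s.t 1 ⊔ dg s.y 1)) := by
    rw [hQ, ht, hy, lt, ly, p0.map_sup, p1.map_sup, p1.qs_dg, p1.qs_dg, p0.qs_dg, p0.qs_dg]
  have k0Q : dg k0 1 ≤ Q := by
    rw [hQ2, hk0, lk0, p1.qs_dg, p0.qs_dg]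
    exact p1.map_mono (p0.map_mono s.hk0)
  have k1Q : dg k1 1 ≤ Q := by
    rw [hQ2, hk1, lk1, p1.qs_dg, p0.qs_dg]
    exact p1.map_mono (p0.map_mono s.hk1)
  have θQ : dg θ 1 ≤ Q := by rw [hθb]; exact bot_le
  have hβQ : dg β0 1 ≤ Q := by rw [hβ]; exact kn_sub k0Q (kn_mul θQ yQ)
  have hαQ : dg α0 1 ≤ Q := by rw [hα]; exact kn_add k1Q (kn_mul θQ tQ)
  have iQU : I Q U ⊥ = 0 := by
    rw [hQ, hU, ku, ku, ht, hy, p1.qs_dg, p1.qs_dg, p1.qs_dg, p1.qs_dg, ← p1.map_sup, ← p1.map_sup, ← p1.map_bot,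
      p1.I_map]
    exact lI
  have hαb : dg α0 d ≤ ⊥ :=
    le_of_markov (((dg_mono _ hd1).trans hαQ).trans le_sup_left) (hαU.trans le_sup_left) iQU
  have hβb : dg β0 d ≤ ⊥ :=
    le_of_markov (((dg_mono _ hd1).trans hβQ).trans le_sup_left) (hβU.trans le_sup_left) iQU
  obtain ⟨α, hα1, hα2⟩ := exists_trunc α0 hd0.le hd1
  obtain ⟨β, hβ1, hβ2⟩ := exists_trunc β0 hd0.le hd1
  refine ⟨D, p1.comp p0, θ, α, β, hθb, le_antisymm (hα2.trans hαb) bot_le, le_antisymm (hβ2.trans hβb) bot_le, ?_, ?_⟩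
  · rw [Pj.comp_qs, Pj.comp_qs, ← lk0, ← ly, ← hk0, ← hy]
    have h1 : k0 - (β + θ * y) = -(β - β0) := by rw [hβ]; ring
    rw [h1]
    exact (Id D d).neg_mem hβ1
  · rw [Pj.comp_qs, Pj.comp_qs, ← lk1, ← lt, ← hk1, ← ht]
    have h1 : k1 - (α - θ * t) = -(α - α0) := by rw [hα]; ring
    rw [h1]
    exact (Id D d).neg_mem hα1

/-- **LEMMA R** (from RING NOISE) at depth `d` -/
theorem lemmaRd (hR : Pool.Agent.Helper69.RN.RNEC) {S : Sp} {g d : ℝ} (hg : 0 < g) (hd0 : 0 < d) (hd1 : d ≤ 1)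
    (s : LSd S g d) :
    ∃ (T : Sp) (p : Pj T S) (θ α β : QS T), dg θ 1 = ⊥ ∧ dg α 1 = ⊥ ∧ dg β 1 = ⊥ ∧
      p.qs s.k0 - (β + θ * p.qs s.y) ∈ Id T d ∧ p.qs s.k1 - (α - θ * p.qs s.t) ∈ Id T d := by
  obtain ⟨k0, h01, h02⟩ := exists_trunc s.k0 hd0.le hd1
  obtain ⟨k1, h11, h12⟩ := exists_trunc s.k1 hd0.le hd1
  obtain ⟨F, hF1, hF2⟩ := exists_trunc (s.k0 + s.u * s.k1) hd0.le hd1
  have eF : F - (k0 + s.u * k1) ∈ Id S d := by
    have h1 : F - (k0 + s.u * k1) = (F - (s.k0 + s.u * s.k1)) - ((k0 - s.k0) + s.u * (k1 - s.k1)) := by ring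
    rw [h1]
    exact (Id S d).sub_mem hF1 ((Id S d).add_mem h01 ((Id S d).mul_mem_left _ h11))
  obtain ⟨T, p, θ, α, β, e1, e2, e3, e4, e5⟩ := LT.lemmaR hR hg hd0 hd1
    ⟨s.t, s.y, s.u, k0, k1, F, s.ht, s.iu, h02.trans s.hk0, h12.trans s.hk1, hF2.trans s.hF, eF, s.rch⟩
  refine ⟨T, p, θ, α, β, e1, e2, e3, ?_, ?_⟩
  · have h1 : p.qs s.k0 - (β + θ * p.qs s.y) = (p.qs k0 - (β + θ * p.qs s.y)) - p.qs (k0 - s.k0) := by
      rw [map_sub]; ring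
    rw [h1]
    exact (Id T d).sub_mem e4 (Pool.Agent.Helper82.TP.Pj_mem_Id p h01)
  · have h1 : p.qs s.k1 - (α - θ * p.qs s.t) = (p.qs k1 - (α - θ * p.qs s.t)) - p.qs (k1 - s.k1) := by
      rw [map_sub]; ring
    rw [h1]
    exact (Id T d).sub_mem e5 (Pool.Agent.Helper82.TP.Pj_mem_Id p h11)

/-- a label free slope over the plane `(t, y)` -/
structure LS (S : Sp) (g : ℝ) where
  t : QS S
  y : QS S
  u : QS S
  k0 : QS S
  k1 : QS S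
  /-- the time is real given the line -/
  ht : h (dg t 1) (dg u 1 ⊔ dg (y - t * u) 1) = 1
  /-- the direction is independent of the point -/
  iu : I (dg u 1) (dg t 1 ⊔ dg y 1) ⊥ = 0
  hk0 : dg k0 1 ≤ dg t 1 ⊔ dg y 1
  hk1 : dg k1 1 ≤ dg t 1 ⊔ dg y 1
  hF : dg (k0 + u * k1) 1 ≤ dg (y - t * u) 1 ⊔ dg u 1
  rch : Rch u ⊥ g

/-- **LEMMA R** (from RING NOISE) -/
theorem lemmaR (hR : Pool.Agent.Helper69.RN.RNEC) {S : Sp} {g : ℝ} (hg : 0 < g) (s : LS S g) :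
    ∃ (T : Sp) (p : Pj T S) (θ α β : QS T), dg θ 1 = ⊥ ∧ dg α 1 = ⊥ ∧ dg β 1 = ⊥ ∧
      p.qs s.k0 = β + θ * p.qs s.y ∧ p.qs s.k1 = α - θ * p.qs s.t := by
  obtain ⟨T, p, θ, α, β, e1, e2, e3, e4, e5⟩ := lemmaRd (d := 1) hR hg one_pos le_rfl
    ⟨s.t, s.y, s.u, s.k0, s.k1, s.ht, s.iu, s.hk0, s.hk1, s.hF, s.rch⟩
  exact ⟨T, p, θ, α, β, e1, e2, e3, sub_eq_zero.mp (mem_Id_one.mp e4), sub_eq_zero.mp (mem_Id_one.mp e5)⟩

end

end Pool.Agent.Helper72.LR
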